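import Pool.Agent.H467R3.PD.FT

set_option autoImplicit false
set_option linter.unusedSectionVars false

/-! Counting lemma for three point patterns `x, x + A n, x + B n`. -/

namespace Pool.Agent.H467R3.PD

open Finset AddChar
open scoped ComplexConjugate

variable {G : Type} [AddCommGroup G] [Fintype G] [DecidableEq G]

/-- weighted number of patterns with difference `n` -/
noncomputable def cnt (A B : G →+ G) (f₁ f₂ f₃ : G → ℝ) (n : G) : ℝ :=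
  ∑ x, f₁ x * f₂ (x + A n) * f₃ (x + B n)

/-- average over differences of two independent samples -/
noncomputable def avg (w : G → ℝ) (F : G → ℝ) : ℝ := ∑ n₁, ∑ n₂, w n₁ * w n₂ * F (n₁ - n₂)

lemma cnt_fourier (A B : G →+ G) (f₁ f₂ f₃ : G → ℝ) (n : G) :
    (Fintype.card G : ℂ) ^ 2 * (cnt A B f₁ f₂ f₃ n : ℝ) =
      ∑ χ : AddChar G ℂ, ∑ ψ : AddChar G ℂ,
        ft f₂ χ * ft f₃ ψ * conj (ft f₁ (χ + ψ)) * (χ (-A n) * ψ (-B n)) := by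
  have h1 : ∀ x, (Fintype.card G : ℂ) ^ 2 * ((f₁ x : ℂ) * f₂ (x + A n) * f₃ (x + B n)) =
      ∑ χ : AddChar G ℂ, ∑ ψ : AddChar G ℂ,
        ft f₂ χ * ft f₃ ψ * ((f₁ x : ℂ) * (χ + ψ) (-x)) * (χ (-A n) * ψ (-B n)) := by
    intro x
    have e2 := ft_inv f₂ (x + A n)
    have e3 := ft_inv f₃ (x + B n)
    have : (Fintype.card G : ℂ) ^ 2 * ((f₁ x : ℂ) * f₂ (x + A n) * f₃ (x + B n)) =
        f₁ x * (((Fintype.card G : ℂ) * f₂ (x + A n)) * ((Fintype.card G : ℂ) * f₃ (x + B n))) := by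
      ring
    rw [this, ← e2, ← e3, Finset.sum_mul_sum, Finset.mul_sum]
    refine Finset.sum_congr rfl fun χ _ => ?_
    rw [Finset.mul_sum]
    refine Finset.sum_congr rfl fun ψ _ => ?_
    rw [neg_add, neg_add, map_add_eq_mul, map_add_eq_mul, AddChar.add_apply]
    ring
  unfold cnt
  push_cast
  rw [Finset.mul_sum]
  simp_rw [h1]
  rw [Finset.sum_comm]
  refine Finset.sum_congr rfl fun χ _ => ?_
  rw [Finset.sum_comm]
  refine Finset.sum_congr rfl fun ψ _ => ?_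
  rw [conj_ft, Finset.mul_sum, Finset.sum_mul]

lemma avg_char (w : G → ℝ) (A B : G →+ G) (χ ψ : AddChar G ℂ) :
    ∑ n₁, ∑ n₂, ((w n₁ : ℂ) * w n₂) * (χ (-A (n₁ - n₂)) * ψ (-B (n₁ - n₂))) =
      ((‖ft w (χ.compAddMonoidHom A + ψ.compAddMonoidHom B)‖ ^ 2 : ℝ) : ℂ) := by
  set θ := χ.compAddMonoidHom A + ψ.compAddMonoidHom B with hθ
  rw [← Complex.normSq_eq_norm_sq, Complex.normSq_eq_conj_mul_self, conj_ft]
  unfold ft
  rw [Finset.sum_mul_sum]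
  refine Finset.sum_congr rfl fun n₁ _ => Finset.sum_congr rfl fun n₂ _ => ?_
  have e1 : θ (-n₁) = χ (-A n₁) * ψ (-B n₁) := by
    rw [hθ, AddChar.add_apply, compAddMonoidHom_apply, compAddMonoidHom_apply, A.map_neg, B.map_neg]
  have e2 : θ n₂ = χ (A n₂) * ψ (B n₂) := by
    rw [hθ, AddChar.add_apply, compAddMonoidHom_apply, compAddMonoidHom_apply]
  rw [e1, e2]
  have e3 : χ (-A (n₁ - n₂)) = χ (-A n₁) * χ (A n₂) := by
    rw [← map_add_eq_mul, map_sub]; congr 1; abel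
  have e4 : ψ (-B (n₁ - n₂)) = ψ (-B n₁) * ψ (B n₂) := by
    rw [← map_add_eq_mul, map_sub]; congr 1; abel
  rw [e3, e4]
  ring

lemma avg_fourier (w : G → ℝ) (A B : G →+ G) (f₁ f₂ f₃ : G → ℝ) :
    (Fintype.card G : ℂ) ^ 2 * (avg w (cnt A B f₁ f₂ f₃) : ℝ) =
      ∑ χ : AddChar G ℂ, ∑ ψ : AddChar G ℂ,
        ft f₂ χ * ft f₃ ψ * conj (ft f₁ (χ + ψ)) *
          ((‖ft w (χ.compAddMonoidHom A + ψ.compAddMonoidHom B)‖ ^ 2 : ℝ) : ℂ) := by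
  simp_rw [← avg_char w A B]
  unfold avg
  push_cast
  rw [Finset.mul_sum]
  simp_rw [Finset.mul_sum]
  have h1 : ∀ n₁ n₂, (Fintype.card G : ℂ) ^ 2 *
      ((w n₁ : ℂ) * (w n₂ : ℂ) * (cnt A B f₁ f₂ f₃ (n₁ - n₂) : ℂ)) =
      ∑ χ : AddChar G ℂ, ∑ ψ : AddChar G ℂ,
        ft f₂ χ * ft f₃ ψ * conj (ft f₁ (χ + ψ)) *
          (((w n₁ : ℂ) * w n₂) * (χ (-A (n₁ - n₂)) * ψ (-B (n₁ - n₂)))) := by
    intro n₁ n₂
    have e := cnt_fourier A B f₁ f₂ f₃ (n₁ - n₂)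
    calc _ = ((w n₁ : ℂ) * (w n₂ : ℂ)) * ((Fintype.card G : ℂ) ^ 2 *
        (cnt A B f₁ f₂ f₃ (n₁ - n₂) : ℂ)) := by ring
      _ = _ := by
        rw [e, Finset.mul_sum]
        refine Finset.sum_congr rfl fun χ _ => ?_
        rw [Finset.mul_sum]
        exact Finset.sum_congr rfl fun ψ _ => by ring
  simp_rw [h1]
  calc _ = ∑ n₁, ∑ χ : AddChar G ℂ, ∑ n₂, ∑ ψ : AddChar G ℂ,
        ft f₂ χ * ft f₃ ψ * conj (ft f₁ (χ + ψ)) *
          (((w n₁ : ℂ) * w n₂) * (χ (-A (n₁ - n₂)) * ψ (-B (n₁ - n₂)))) :=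
        Finset.sum_congr rfl fun n₁ _ => Finset.sum_comm
    _ = ∑ χ : AddChar G ℂ, ∑ n₁, ∑ n₂, ∑ ψ : AddChar G ℂ,
        ft f₂ χ * ft f₃ ψ * conj (ft f₁ (χ + ψ)) *
          (((w n₁ : ℂ) * w n₂) * (χ (-A (n₁ - n₂)) * ψ (-B (n₁ - n₂)))) := Finset.sum_comm
    _ = ∑ χ : AddChar G ℂ, ∑ n₁, ∑ ψ : AddChar G ℂ, ∑ n₂,
        ft f₂ χ * ft f₃ ψ * conj (ft f₁ (χ + ψ)) *
          (((w n₁ : ℂ) * w n₂) * (χ (-A (n₁ - n₂)) * ψ (-B (n₁ - n₂)))) :=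
        Finset.sum_congr rfl fun χ _ => Finset.sum_congr rfl fun n₁ _ => Finset.sum_comm
    _ = _ := Finset.sum_congr rfl fun χ _ => Finset.sum_comm

/-- precomposition with a bijective homomorphism is a bijection of the dual -/
lemma comp_bij (B : G →+ G) (hB : Function.Bijective B) :
    Function.Bijective (fun ψ : AddChar G ℂ => ψ.compAddMonoidHom B) := by
  rw [Fintype.bijective_iff_injective_and_card]
  exact ⟨compAddMonoidHom_injective_left B hB.surjective, rfl⟩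

lemma sum_shift_comp (w : G → ℝ) (B : G →+ G) (hB : Function.Bijective B) (θ : AddChar G ℂ) :
    ∑ ψ : AddChar G ℂ, ‖ft w (θ + ψ.compAddMonoidHom B)‖ ^ 2 =
      (Fintype.card G : ℝ) * ∑ x, w x ^ 2 := by
  rw [← parseval]
  have h := comp_bij B hB
  calc ∑ ψ : AddChar G ℂ, ‖ft w (θ + ψ.compAddMonoidHom B)‖ ^ 2
      = ∑ φ : AddChar G ℂ, ‖ft w (θ + φ)‖ ^ 2 :=
        Fintype.sum_bijective _ h _ _ fun ψ => rfl
    _ = _ := Fintype.sum_equiv (Equiv.addLeft θ) _ _ fun φ => rfl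

lemma sum_shift_comp' (w : G → ℝ) (B : G →+ G) (hB : Function.Bijective B) (θ : AddChar G ℂ) :
    ∑ ψ : AddChar G ℂ, ‖ft w (θ - ψ.compAddMonoidHom B)‖ ^ 2 =
      (Fintype.card G : ℝ) * ∑ x, w x ^ 2 := by
  rw [← sum_shift_comp w B hB θ]
  refine Fintype.sum_equiv (Equiv.neg _) _ _ fun ψ => ?_
  congr 3
  ext x
  simp [sub_eq_add_neg]

variable {S : Finset G} {c : ℝ} {w : G → ℝ}

lemma sq_sum_le_card (f : G → ℝ) (hf : ∀ x, |f x| ≤ 1) :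
    ∑ x, f x ^ 2 ≤ (Fintype.card G : ℝ) := by
  calc ∑ x, f x ^ 2 ≤ ∑ _x : G, (1 : ℝ) := by
        refine Finset.sum_le_sum fun x _ => ?_
        rw [← sq_abs]
        exact pow_le_one₀ (abs_nonneg _) (hf x)
    _ = _ := by simp

/-- the counting lemma -/
lemma count_bound (hw : Wt S c w) (A B : G →+ G) (hB : Function.Bijective B)
    (hBA : Function.Bijective (B - A)) (f₁ f₂ h : G → ℝ) (hf₁ : ∀ x, |f₁ x| ≤ 1)
    (hf₂ : ∀ x, |f₂ x| ≤ 1) {H : ℝ} (hH : ∀ ψ : AddChar G ℂ, ‖ft h ψ‖ ≤ H) :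
    |avg w (cnt A B f₁ f₂ h)| ≤ H * c * Fintype.card G := by
  have hg : (0 : ℝ) < Fintype.card G := by exact_mod_cast Fintype.card_pos
  have hH0 : 0 ≤ H := (norm_nonneg _).trans (hH 0)
  set g : ℝ := ((Fintype.card G : ℕ) : ℝ) with hgdef
  set W : AddChar G ℂ → AddChar G ℂ → ℝ := fun χ ψ =>
    ‖ft w (χ.compAddMonoidHom A + ψ.compAddMonoidHom B)‖ ^ 2 with hW
  have hW0 : ∀ χ ψ, 0 ≤ W χ ψ := fun χ ψ => sq_nonneg _
  have key : g ^ 2 * |avg w (cnt A B f₁ f₂ h)| ≤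
      ∑ χ : AddChar G ℂ, ∑ ψ : AddChar G ℂ,
        H * ((‖ft f₂ χ‖ ^ 2 * W χ ψ + ‖ft f₁ (χ + ψ)‖ ^ 2 * W χ ψ) / 2) := by
    have e := avg_fourier w A B f₁ f₂ h
    have e1 : g ^ 2 * |avg w (cnt A B f₁ f₂ h)| =
        ‖(Fintype.card G : ℂ) ^ 2 * (avg w (cnt A B f₁ f₂ h) : ℝ)‖ := by
      rw [norm_mul, norm_pow, Complex.norm_real, Complex.norm_natCast, Real.norm_eq_abs]
    rw [e1, e]
    refine (norm_sum_le _ _).trans (Finset.sum_le_sum fun χ _ => ?_)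
    refine (norm_sum_le _ _).trans (Finset.sum_le_sum fun ψ _ => ?_)
    rw [norm_mul, norm_mul, norm_mul, Complex.norm_real, Real.norm_eq_abs, abs_of_nonneg (hW0 χ ψ),
      Complex.norm_conj]
    change ‖ft f₂ χ‖ * ‖ft h ψ‖ * ‖ft f₁ (χ + ψ)‖ * W χ ψ ≤ _
    have h1 : ‖ft f₂ χ‖ * ‖ft f₁ (χ + ψ)‖ ≤ (‖ft f₂ χ‖ ^ 2 + ‖ft f₁ (χ + ψ)‖ ^ 2) / 2 := by
      nlinarith [sq_nonneg (‖ft f₂ χ‖ - ‖ft f₁ (χ + ψ)‖)]
    calc ‖ft f₂ χ‖ * ‖ft h ψ‖ * ‖ft f₁ (χ + ψ)‖ * W χ ψ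
        = ‖ft h ψ‖ * ((‖ft f₂ χ‖ * ‖ft f₁ (χ + ψ)‖) * W χ ψ) := by ring
      _ ≤ H * (((‖ft f₂ χ‖ ^ 2 + ‖ft f₁ (χ + ψ)‖ ^ 2) / 2) * W χ ψ) := by
          refine mul_le_mul (hH ψ) (mul_le_mul_of_nonneg_right h1 (hW0 χ ψ)) (by positivity) hH0
      _ = _ := by ring
  have s1 : ∑ χ : AddChar G ℂ, ∑ ψ : AddChar G ℂ, ‖ft f₂ χ‖ ^ 2 * W χ ψ ≤ g * g * (g * c) := by
    have : ∀ χ : AddChar G ℂ, ∑ ψ : AddChar G ℂ, ‖ft f₂ χ‖ ^ 2 * W χ ψ =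
        ‖ft f₂ χ‖ ^ 2 * (g * ∑ x, w x ^ 2) := by
      intro χ
      rw [← Finset.mul_sum, ← sum_shift_comp w B hB (χ.compAddMonoidHom A)]
    simp_rw [this]
    rw [← Finset.sum_mul, parseval]
    refine mul_le_mul (mul_le_mul_of_nonneg_left (sq_sum_le_card f₂ hf₂) hg.le)
      (mul_le_mul_of_nonneg_left hw.sum_sq_le hg.le) ?_ (by positivity)
    exact mul_nonneg hg.le (Finset.sum_nonneg fun x _ => sq_nonneg _)
  have s2 : ∑ χ : AddChar G ℂ, ∑ ψ : AddChar G ℂ, ‖ft f₁ (χ + ψ)‖ ^ 2 * W χ ψ ≤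
      g * g * (g * c) := by
    have e1 : ∑ χ : AddChar G ℂ, ∑ ψ : AddChar G ℂ, ‖ft f₁ (χ + ψ)‖ ^ 2 * W χ ψ =
        ∑ χ : AddChar G ℂ, ∑ φ : AddChar G ℂ, ‖ft f₁ φ‖ ^ 2 * W χ (φ - χ) := by
      refine Finset.sum_congr rfl fun χ _ => ?_
      refine Fintype.sum_equiv (Equiv.addLeft χ) _ _ fun ψ => ?_
      simp
    rw [e1, Finset.sum_comm]
    have e2 : ∀ φ : AddChar G ℂ, ∑ χ : AddChar G ℂ, ‖ft f₁ φ‖ ^ 2 * W χ (φ - χ) =
        ‖ft f₁ φ‖ ^ 2 * (g * ∑ x, w x ^ 2) := by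
      intro φ
      rw [← Finset.mul_sum, ← sum_shift_comp' w (B - A) hBA (φ.compAddMonoidHom B)]
      congr 1
      refine Finset.sum_congr rfl fun χ _ => ?_
      simp only [hW]
      congr 3
      ext x
      simp only [AddChar.add_apply, compAddMonoidHom_apply, AddChar.sub_apply, AddMonoidHom.sub_apply]
      have e5 : B (-x) - A (-x) = A x + -B x := by
        rw [A.map_neg, B.map_neg]; abel
      rw [e5, map_add_eq_mul]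
      ring
    simp_rw [e2]
    rw [← Finset.sum_mul, parseval]
    refine mul_le_mul (mul_le_mul_of_nonneg_left (sq_sum_le_card f₁ hf₁) hg.le)
      (mul_le_mul_of_nonneg_left hw.sum_sq_le hg.le) ?_ (by positivity)
    exact mul_nonneg hg.le (Finset.sum_nonneg fun x _ => sq_nonneg _)
  have s3 : ∑ χ : AddChar G ℂ, ∑ ψ : AddChar G ℂ,
        H * ((‖ft f₂ χ‖ ^ 2 * W χ ψ + ‖ft f₁ (χ + ψ)‖ ^ 2 * W χ ψ) / 2) =
      H / 2 * (∑ χ : AddChar G ℂ, ∑ ψ : AddChar G ℂ, ‖ft f₂ χ‖ ^ 2 * W χ ψ +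
        ∑ χ : AddChar G ℂ, ∑ ψ : AddChar G ℂ, ‖ft f₁ (χ + ψ)‖ ^ 2 * W χ ψ) := by
    rw [← Finset.sum_add_distrib, Finset.mul_sum]
    refine Finset.sum_congr rfl fun χ _ => ?_
    rw [← Finset.sum_add_distrib, Finset.mul_sum]
    exact Finset.sum_congr rfl fun ψ _ => by ring
  rw [s3] at key
  have : g ^ 2 * |avg w (cnt A B f₁ f₂ h)| ≤ g ^ 2 * (H * c * g) := by
    refine key.trans ?_
    have : H / 2 * (g * g * (g * c) + g * g * (g * c)) = g ^ 2 * (H * c * g) := by ring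
    rw [← this]
    exact mul_le_mul_of_nonneg_left (add_le_add s1 s2) (by positivity)
  exact le_of_mul_le_mul_left this (by positivity)

end Pool.Agent.H467R3.PD
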