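import Pool.Agent.H467R3.PD.Weights

set_option autoImplicit false
set_option linter.unusedSectionVars false

/-! Energy increment. -/

namespace Pool.Agent.H467R3.PD

open Finset AddChar
open scoped ComplexConjugate

section
variable {G : Type} [AddCommGroup G] [Fintype G] [DecidableEq G]
variable {S : Finset G} {c c' : ℝ} {w σ σ' : G → ℝ}

lemma Wt.mono (hw : Wt S c w) (h : c ≤ c') : Wt S c' w :=
  ⟨hw.nonneg, hw.sum_eq, fun x => (hw.le x).trans h, hw.supp, hw.pos⟩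

lemma cnt_add (A B : G →+ G) (f₁ f₂ a b : G → ℝ) (n : G) :
    cnt A B f₁ f₂ (fun x => a x + b x) n = cnt A B f₁ f₂ a n + cnt A B f₁ f₂ b n := by
  unfold cnt
  rw [← Finset.sum_add_distrib]
  exact Finset.sum_congr rfl fun x _ => by ring

lemma avg_add (w F H : G → ℝ) : avg w (fun n => F n + H n) = avg w F + avg w H := by
  unfold avg
  rw [← Finset.sum_add_distrib]
  refine Finset.sum_congr rfl fun n₁ _ => ?_
  rw [← Finset.sum_add_distrib]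
  exact Finset.sum_congr rfl fun n₂ _ => by ring

lemma Wt.abs_avg_le (hw : Wt S c w) (F : G → ℝ) (D : ℝ) (hF : ∀ n, |F n| ≤ D) :
    |avg w F| ≤ D := by
  unfold avg
  calc |∑ n₁, ∑ n₂, w n₁ * w n₂ * F (n₁ - n₂)|
      ≤ ∑ n₁, |∑ n₂, w n₁ * w n₂ * F (n₁ - n₂)| := Finset.abs_sum_le_sum_abs _ _
    _ ≤ ∑ n₁, ∑ n₂, w n₁ * w n₂ * D := by
        refine Finset.sum_le_sum fun n₁ _ => (Finset.abs_sum_le_sum_abs _ _).trans ?_
        refine Finset.sum_le_sum fun n₂ _ => ?_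
        have h0 : 0 ≤ w n₁ * w n₂ := mul_nonneg (hw.nonneg _) (hw.nonneg _)
        rw [abs_mul, abs_of_nonneg h0]
        exact mul_le_mul_of_nonneg_left (hF _) h0
    _ = D := by
        simp_rw [← Finset.sum_mul, ← Finset.mul_sum]
        rw [hw.sum_eq]
        simp [hw.sum_eq]

lemma cnt_abs_le (A B : G →+ G) (f d : G → ℝ) (hf0 : ∀ x, 0 ≤ f x) (hf1 : ∀ x, f x ≤ 1) (n : G) :
    |cnt A B f f d n| ≤ ∑ x, |d x| := by
  unfold cnt
  rw [← sum_shift (fun x => |d x|) (B n)]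
  refine (Finset.abs_sum_le_sum_abs _ _).trans (Finset.sum_le_sum fun x _ => ?_)
  have q0 : 0 ≤ f x * f (x + A n) := mul_nonneg (hf0 _) (hf0 _)
  have q1 : f x * f (x + A n) ≤ 1 := mul_le_one₀ (hf1 _) (hf0 _) (hf1 _)
  rw [abs_mul, abs_of_nonneg q0]
  calc _ ≤ 1 * |d (x + B n)| := mul_le_mul_of_nonneg_right q1 (abs_nonneg _)
    _ = _ := one_mul _

lemma sum_abs_le (d : G → ℝ) {η : ℝ} (hη : 0 < η) (h : ∑ x, d x ^ 2 ≤ η ^ 2 * Fintype.card G) :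
    ∑ x, |d x| ≤ η * Fintype.card G := by
  have h2 : ∀ t : ℝ, |t| ≤ (2 * η)⁻¹ * t ^ 2 + η / 2 := by
    intro d
    have : (2 * η)⁻¹ * d ^ 2 + η / 2 - |d| = (2 * η)⁻¹ * (|d| - η) ^ 2 := by
      rw [← sq_abs d]; field_simp; ring
    have h3 : 0 ≤ (2 * η)⁻¹ * (|d| - η) ^ 2 := by positivity
    linarith
  have h4 : ∑ x, |d x| ≤ ∑ x, ((2 * η)⁻¹ * d x ^ 2 + η / 2) :=
    Finset.sum_le_sum fun x _ => h2 _
  have h5 : ∑ x : G, ((2 * η)⁻¹ * d x ^ 2 + η / 2) =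
      (2 * η)⁻¹ * ∑ x, d x ^ 2 + η / 2 * Fintype.card G := by
    rw [Finset.sum_add_distrib, ← Finset.mul_sum]
    simp
    ring
  have h6 : (2 * η)⁻¹ * ∑ x, d x ^ 2 ≤ (2 * η)⁻¹ * (η ^ 2 * Fintype.card G) :=
    mul_le_mul_of_nonneg_left h (by positivity)
  have h7 : (2 * η)⁻¹ * (η ^ 2 * (Fintype.card G : ℝ)) = η / 2 * Fintype.card G := by
    field_simp
  rw [h5] at h4
  rw [h7] at h6
  linarith

/-- energy -/
noncomputable def en (f σ : G → ℝ) : ℝ :=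
  (Fintype.card G : ℝ)⁻¹ * ∑ ψ : AddChar G ℂ, ‖ft f ψ‖ ^ 2 * (ft σ ψ).re

lemma Wt.en_nonneg (hσ : Wt S c σ) (f : G → ℝ) : 0 ≤ en f σ :=
  mul_nonneg (by positivity) (Finset.sum_nonneg fun ψ _ =>
    mul_nonneg (sq_nonneg _) (hσ.re_nonneg ψ))

lemma Wt.en_le (hσ : Wt S c σ) (f : G → ℝ) (hf : ∀ x, |f x| ≤ 1) :
    en f σ ≤ Fintype.card G := by
  have hg : (0 : ℝ) < Fintype.card G := by exact_mod_cast Fintype.card_pos
  unfold en
  rw [inv_mul_le_iff₀ hg]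
  calc ∑ ψ : AddChar G ℂ, ‖ft f ψ‖ ^ 2 * (ft σ ψ).re ≤ ∑ ψ : AddChar G ℂ, ‖ft f ψ‖ ^ 2 * 1 :=
        Finset.sum_le_sum fun ψ _ => mul_le_mul_of_nonneg_left (hσ.re_le_one ψ) (sq_nonneg _)
    _ = (Fintype.card G : ℝ) * ∑ x, f x ^ 2 := by simp_rw [mul_one]; exact parseval f
    _ ≤ _ := mul_le_mul_of_nonneg_left (sq_sum_le_card f hf) hg.le

lemma ft_sub (a b : G → ℝ) (ψ : AddChar G ℂ) : ft (fun x => a x - b x) ψ = ft a ψ - ft b ψ := by
  unfold ft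
  rw [← Finset.sum_sub_distrib]
  exact Finset.sum_congr rfl fun x _ => by push_cast; ring

/-- energy increment inequality -/
lemma en_incr (hσ : Wt S c σ) (hσ' : Wt S c' σ') (f : G → ℝ) (hf : ∀ x, |f x| ≤ 1) {δ : ℝ}
    (hδ : 0 < δ) (h : ∀ ψ : AddChar G ℂ, δ ≤ (ft σ ψ).re → 1 - δ ≤ (ft σ' ψ).re) :
    ∑ x, (cv σ' f x - cv σ f x) ^ 2 ≤ en f σ' - en f σ + 2 * δ * Fintype.card G := by
  have hg : (0 : ℝ) < Fintype.card G := by exact_mod_cast Fintype.card_pos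
  have e := parseval (fun x => cv σ' f x - cv σ f x)
  have e1 : ∀ ψ : AddChar G ℂ, ‖ft (fun x => cv σ' f x - cv σ f x) ψ‖ ^ 2 =
      ‖ft f ψ‖ ^ 2 * ((ft σ' ψ).re - (ft σ ψ).re) ^ 2 := by
    intro ψ
    rw [ft_sub, hσ.ft_cv, hσ'.ft_cv, ← sub_mul, norm_mul, mul_pow, ← Complex.ofReal_sub,
      Complex.norm_real, Real.norm_eq_abs, sq_abs]
    ring
  simp_rw [e1] at e
  have e2 : ∑ ψ : AddChar G ℂ, ‖ft f ψ‖ ^ 2 * ((ft σ' ψ).re - (ft σ ψ).re) ^ 2 ≤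
      ∑ ψ : AddChar G ℂ, (‖ft f ψ‖ ^ 2 * (ft σ' ψ).re - ‖ft f ψ‖ ^ 2 * (ft σ ψ).re +
        ‖ft f ψ‖ ^ 2 * (2 * δ)) := by
    refine Finset.sum_le_sum fun ψ _ => ?_
    have a0 := hσ.re_nonneg ψ
    have a1 := hσ.re_le_one ψ
    have b0 := hσ'.re_nonneg ψ
    have b1 := hσ'.re_le_one ψ
    have key : ((ft σ' ψ).re - (ft σ ψ).re) ^ 2 ≤ (ft σ' ψ).re - (ft σ ψ).re + 2 * δ := by
      have h1 : (ft σ ψ).re - δ ≤ (ft σ' ψ).re := by
        by_cases hψ : δ ≤ (ft σ ψ).re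
        · have := h ψ hψ; linarith
        · push Not at hψ; linarith
      by_cases h2 : (ft σ ψ).re ≤ (ft σ' ψ).re
      · nlinarith
      · push Not at h2
        nlinarith
    nlinarith [mul_le_mul_of_nonneg_left key (sq_nonneg ‖ft f ψ‖)]
  have e3 : ∑ ψ : AddChar G ℂ, (‖ft f ψ‖ ^ 2 * (ft σ' ψ).re - ‖ft f ψ‖ ^ 2 * (ft σ ψ).re +
        ‖ft f ψ‖ ^ 2 * (2 * δ)) = (Fintype.card G : ℝ) * (en f σ' - en f σ) +
        (Fintype.card G : ℝ) * (∑ x, f x ^ 2) * (2 * δ) := by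
    rw [Finset.sum_add_distrib, Finset.sum_sub_distrib, ← Finset.sum_mul, parseval]
    unfold en
    rw [mul_sub, mul_inv_cancel_left₀ hg.ne', mul_inv_cancel_left₀ hg.ne']
  have e4 : (Fintype.card G : ℝ) * (∑ x, f x ^ 2) * (2 * δ) ≤
      (Fintype.card G : ℝ) * (2 * δ * Fintype.card G) := by
    have := mul_le_mul_of_nonneg_left (sq_sum_le_card f hf) (by positivity : (0:ℝ) ≤ 2 * δ)
    nlinarith
  rw [e, e3] at e2
  have : (Fintype.card G : ℝ) * ∑ x, (cv σ' f x - cv σ f x) ^ 2 ≤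
      (Fintype.card G : ℝ) * (en f σ' - en f σ + 2 * δ * Fintype.card G) := by
    rw [mul_add]; linarith
  exact le_of_mul_le_mul_left this hg

lemma ft_rest (hσ' : Wt S c' σ') (f : G → ℝ) (hf : ∀ x, |f x| ≤ 1) {ρ : ℝ} (hρ : 0 ≤ ρ)
    (h : ∀ ψ : AddChar G ℂ, ρ * Fintype.card G ≤ ‖ft f ψ‖ → 1 - ρ ≤ (ft σ' ψ).re)
    (ψ : AddChar G ℂ) : ‖ft (fun x => f x - cv σ' f x) ψ‖ ≤ ρ * Fintype.card G := by
  have hg : (0 : ℝ) < Fintype.card G := by exact_mod_cast Fintype.card_pos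
  have b0 := hσ'.re_nonneg ψ
  have b1 := hσ'.re_le_one ψ
  have e : ft (fun x => f x - cv σ' f x) ψ = ((1 - (ft σ' ψ).re : ℝ) : ℂ) * ft f ψ := by
    rw [ft_sub, hσ'.ft_cv]; push_cast; ring
  rw [e, norm_mul, Complex.norm_real, Real.norm_eq_abs, abs_of_nonneg (by linarith)]
  have hfn : ‖ft f ψ‖ ≤ Fintype.card G := by
    refine (ft_norm_le f ψ).trans ?_
    calc ∑ x, |f x| ≤ ∑ _x : G, (1 : ℝ) := Finset.sum_le_sum fun x _ => hf x
      _ = _ := by simp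
  by_cases hψ : ρ * Fintype.card G ≤ ‖ft f ψ‖
  · have := h ψ hψ
    have n0 := norm_nonneg (ft f ψ)
    nlinarith
  · push Not at hψ
    have n0 := norm_nonneg (ft f ψ)
    nlinarith

end

/-- weights with prescribed frequencies, uniformly -/
lemma exists_wt_eps (B0 ε K : ℝ) (hB0 : 0 ≤ B0) (hε : 0 < ε) : ∃ C' : ℝ, 0 ≤ C' ∧
    ∀ (G : Type) [AddCommGroup G] [Fintype G] [DecidableEq G] (I S : Finset G),
      I.Nonempty → (∀ u ∈ I, ∀ v ∈ I, u - v ∈ S) → (Fintype.card G : ℝ) ≤ B0 * I.card →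
      ∀ T : Finset (AddChar G ℂ), (T.card : ℝ) ≤ K →
      ∃ w : G → ℝ, Wt S (C' / Fintype.card G) w ∧ ∀ ψ ∈ T, 1 - ε ≤ (ft w ψ).re := by
  set Q : ℕ := ⌈2 / ε⌉₊ with hQ
  have hQ0 : 0 < Q := Nat.ceil_pos.mpr (by positivity)
  have hQ1 : (1 : ℝ) ≤ Q := by exact_mod_cast hQ0
  refine ⟨(Q : ℝ) ^ ⌊K⌋₊ * B0, by positivity, ?_⟩
  intro G _ _ _ I S hI hS hB T hT
  have hg : (0 : ℝ) < Fintype.card G := by exact_mod_cast Fintype.card_pos
  have hIc : (0 : ℝ) < I.card := by exact_mod_cast hI.card_pos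
  obtain ⟨w, hw, hw2⟩ := exists_wt I S hI hS Q hQ0 T
  refine ⟨w, hw.mono ?_, ?_⟩
  · have h1 : (Q : ℝ) ^ T.card ≤ (Q : ℝ) ^ ⌊K⌋₊ :=
      pow_le_pow_right₀ hQ1 (Nat.le_floor hT)
    have h2 : (I.card : ℝ)⁻¹ ≤ B0 / Fintype.card G := by
      rw [inv_le_iff_one_le_mul₀ hIc, div_mul_eq_mul_div, le_div_iff₀ hg]
      linarith
    calc (Q : ℝ) ^ T.card * (I.card : ℝ)⁻¹ ≤ (Q : ℝ) ^ ⌊K⌋₊ * (B0 / Fintype.card G) :=
          mul_le_mul h1 h2 (by positivity) (by positivity)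
      _ = _ := by ring
  · intro ψ hψ
    refine le_trans ?_ (hw2 ψ hψ)
    have h3 : 2 / ε ≤ Q := Nat.le_ceil _
    have h4 : 2 / (Q : ℝ) ≤ ε := by
      rw [div_le_iff₀ (by positivity)]
      rw [div_le_iff₀ hε] at h3
      linarith
    linarith

lemma step_w (B0 δ C : ℝ) (hB0 : 0 ≤ B0) (hδ : 0 < δ) : ∃ C' : ℝ, 0 ≤ C' ∧
    ∀ (G : Type) [AddCommGroup G] [Fintype G] [DecidableEq G] (A B : G →+ G) (I S : Finset G),
      I.Nonempty → (∀ u ∈ I, ∀ v ∈ I, u - v ∈ S) → (Fintype.card G : ℝ) ≤ B0 * I.card →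
      ∀ σ : G → ℝ, Wt S (C / Fintype.card G) σ →
      ∃ w : G → ℝ, Wt S (C' / Fintype.card G) w ∧ ∀ ψ : AddChar G ℂ, δ ≤ (ft σ ψ).re →
        1 - δ ≤ (ft w (ψ.compAddMonoidHom A)).re ∧ 1 - δ ≤ (ft w (ψ.compAddMonoidHom B)).re := by
  classical
  obtain ⟨C', h0, h1⟩ := exists_wt_eps B0 δ (2 * (C / δ ^ 2)) hB0 hδ
  refine ⟨C', h0, ?_⟩
  intro G _ _ _ A B I S hI hS hB σ hσ
  have hg : (0 : ℝ) < Fintype.card G := by exact_mod_cast Fintype.card_pos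
  set L := Finset.univ.filter fun ψ : AddChar G ℂ => δ ≤ (ft σ ψ).re with hL
  have hc := hσ.card_large hδ
  rw [← hL, mul_div_cancel₀ _ hg.ne'] at hc
  have hc' : (L.card : ℝ) ≤ C / δ ^ 2 := by rw [le_div_iff₀ (by positivity)]; exact hc
  obtain ⟨w, hw, hw2⟩ := h1 G I S hI hS hB
    (L.image (fun ψ => ψ.compAddMonoidHom A) ∪ L.image (fun ψ => ψ.compAddMonoidHom B)) (by
      have a1 := Finset.card_union_le (L.image (fun ψ => ψ.compAddMonoidHom A))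
        (L.image (fun ψ => ψ.compAddMonoidHom B))
      have a2 := Finset.card_image_le (s := L) (f := fun ψ => ψ.compAddMonoidHom A)
      have a3 := Finset.card_image_le (s := L) (f := fun ψ => ψ.compAddMonoidHom B)
      have a4 : ((L.image (fun ψ => ψ.compAddMonoidHom A) ∪
        L.image (fun ψ => ψ.compAddMonoidHom B)).card : ℝ) ≤ L.card + L.card := by
        exact_mod_cast a1.trans (add_le_add a2 a3)
      linarith)
  refine ⟨w, hw, fun ψ hψ => ⟨hw2 _ ?_, hw2 _ ?_⟩⟩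
  · exact Finset.mem_union_left _ (Finset.mem_image_of_mem _
      (Finset.mem_filter.mpr ⟨Finset.mem_univ _, hψ⟩))
  · exact Finset.mem_union_right _ (Finset.mem_image_of_mem _
      (Finset.mem_filter.mpr ⟨Finset.mem_univ _, hψ⟩))

lemma step_s (B0 δ ρ C : ℝ) (hB0 : 0 ≤ B0) (hδ : 0 < δ) (hρ : 0 < ρ) : ∃ C' : ℝ, 0 ≤ C' ∧
    ∀ (G : Type) [AddCommGroup G] [Fintype G] [DecidableEq G] (I S : Finset G),
      I.Nonempty → (∀ u ∈ I, ∀ v ∈ I, u - v ∈ S) → (Fintype.card G : ℝ) ≤ B0 * I.card →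
      ∀ (f : G → ℝ) (_ : ∀ x, |f x| ≤ 1) (σ : G → ℝ), Wt S (C / Fintype.card G) σ →
      ∃ σ' : G → ℝ, Wt S (C' / Fintype.card G) σ' ∧
        (∀ ψ : AddChar G ℂ, δ ≤ (ft σ ψ).re → 1 - δ ≤ (ft σ' ψ).re) ∧
        (∀ ψ : AddChar G ℂ, ρ * Fintype.card G ≤ ‖ft f ψ‖ → 1 - ρ ≤ (ft σ' ψ).re) := by
  classical
  obtain ⟨C', h0, h1⟩ := exists_wt_eps B0 (min δ ρ) (C / δ ^ 2 + 1 / ρ ^ 2) hB0 (lt_min hδ hρ)
  refine ⟨C', h0, ?_⟩
  intro G _ _ _ I S hI hS hB f hf σ hσ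
  have hg : (0 : ℝ) < Fintype.card G := by exact_mod_cast Fintype.card_pos
  set L := Finset.univ.filter fun ψ : AddChar G ℂ => δ ≤ (ft σ ψ).re with hL
  set L' := Finset.univ.filter fun ψ : AddChar G ℂ => ρ * Fintype.card G ≤ ‖ft f ψ‖ with hL'
  have hc := hσ.card_large hδ
  rw [← hL, mul_div_cancel₀ _ hg.ne'] at hc
  have hc' : (L.card : ℝ) ≤ C / δ ^ 2 := by rw [le_div_iff₀ (by positivity)]; exact hc
  have hd := card_spec f hf hρ
  rw [← hL'] at hd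
  have hd' : (L'.card : ℝ) ≤ 1 / ρ ^ 2 := by rw [le_div_iff₀ (by positivity)]; exact hd
  obtain ⟨w, hw, hw2⟩ := h1 G I S hI hS hB (L ∪ L') (by
      have a1 := Finset.card_union_le L L'
      have a4 : ((L ∪ L').card : ℝ) ≤ L.card + L'.card := by exact_mod_cast a1
      linarith)
  refine ⟨w, hw, fun ψ hψ => ?_, fun ψ hψ => ?_⟩
  · have := hw2 ψ (Finset.mem_union_left _ (Finset.mem_filter.mpr ⟨Finset.mem_univ _, hψ⟩))
    have := min_le_left δ ρ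
    linarith
  · have := hw2 ψ (Finset.mem_union_right _ (Finset.mem_filter.mpr ⟨Finset.mem_univ _, hψ⟩))
    have := min_le_right δ ρ
    linarith

/-- the iteration -/
lemma iterate (B0 η : ℝ) (hB0 : 0 ≤ B0) (hη : 0 < η) (hη1 : η ≤ 1) (J : ℕ) :
    ∃ C : ℝ, 0 ≤ C ∧
    ∀ (G : Type) [AddCommGroup G] [Fintype G] [DecidableEq G] (A B : G →+ G) (I S : Finset G),
      Function.Bijective B → Function.Bijective (B - A) →
      I.Nonempty → (∀ u ∈ I, ∀ v ∈ I, u - v ∈ S) → (Fintype.card G : ℝ) ≤ B0 * I.card →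
      ∀ (f : G → ℝ) (_ : ∀ x, 0 ≤ f x) (_ : ∀ x, f x ≤ 1),
      (∃ w : G → ℝ, Wt S (C / Fintype.card G) w ∧
        (∑ x, f x) ^ 3 / (Fintype.card G : ℝ) ^ 2 - 5 * η * Fintype.card G ≤
          avg w (cnt A B f f f)) ∨
      (∃ σ : G → ℝ, Wt S (C / Fintype.card G) σ ∧
        J * (η ^ 2 / 2) * Fintype.card G ≤ en f σ) := by
  induction J with
  | zero =>
    obtain ⟨C, h0, h1⟩ := exists_wt_eps B0 1 0 hB0 one_pos
    refine ⟨C, h0, ?_⟩
    intro G _ _ _ A B I S hB hBA hI hS hc f hf0 hf1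
    right
    obtain ⟨w, hw, _⟩ := h1 G I S hI hS hc ∅ (by simp)
    exact ⟨w, hw, by simpa using hw.en_nonneg f⟩
  | succ J ih =>
    obtain ⟨C, h0, h1⟩ := ih
    set δ : ℝ := η ^ 2 / 4 with hδdef
    have hδ : 0 < δ := by positivity
    have hδ1 : δ ≤ 1 := by rw [hδdef]; nlinarith
    obtain ⟨C₁, g0, g1⟩ := step_w B0 δ C hB0 hδ
    set ρ : ℝ := η / (C₁ + 1) with hρdef
    have hρ : 0 < ρ := by positivity
    obtain ⟨C₂, k0, k1⟩ := step_s B0 δ ρ C hB0 hδ hρ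
    refine ⟨C + C₁ + C₂, by positivity, ?_⟩
    intro G _ _ _ A B I S hB hBA hI hS hc f hf0 hf1
    have hg : (0 : ℝ) < Fintype.card G := by exact_mod_cast Fintype.card_pos
    have hfa : ∀ x, |f x| ≤ 1 := fun x => by rw [abs_of_nonneg (hf0 x)]; exact hf1 x
    rcases h1 G A B I S hB hBA hI hS hc f hf0 hf1 with ⟨w, hw, hw2⟩ | ⟨σ, hσ, hσ2⟩
    · left
      refine ⟨w, hw.mono ?_, hw2⟩
      exact div_le_div_of_nonneg_right (by linarith) hg.le
    · obtain ⟨w, hw, hw2⟩ := g1 G A B I S hI hS hc σ hσ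
      obtain ⟨σ', hσ', hs1, hs2⟩ := k1 G I S hI hS hc f hfa σ hσ
      by_cases hgood : ∑ x, (cv σ' f x - cv σ f x) ^ 2 ≤ η ^ 2 * Fintype.card G
      · left
        refine ⟨w, hw.mono (div_le_div_of_nonneg_right (by linarith) hg.le), ?_⟩
        have m1 := main_term hσ hw f hf0 hf1 A B hδ hδ1 hη (by rw [hδdef]; nlinarith)
          (fun ψ hψ => (hw2 ψ hψ).1) (fun ψ hψ => (hw2 ψ hψ).2)
        have m2 : |avg w (cnt A B f f (fun x => cv σ' f x - cv σ f x))| ≤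
            η * Fintype.card G :=
          hw.abs_avg_le _ _ fun n =>
            (cnt_abs_le A B f _ hf0 hf1 n).trans (sum_abs_le _ hη hgood)
        have m3 : |avg w (cnt A B f f (fun x => f x - cv σ' f x))| ≤
            ρ * Fintype.card G * (C₁ / Fintype.card G) * Fintype.card G :=
          count_bound hw A B hB hBA f f _ hfa hfa (ft_rest hσ' f hfa hρ.le hs2)
        have m4 : ρ * Fintype.card G * (C₁ / Fintype.card G) * Fintype.card G ≤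
            η * Fintype.card G := by
          have : ρ * Fintype.card G * (C₁ / Fintype.card G) = ρ * C₁ := by field_simp
          rw [this]
          refine mul_le_mul_of_nonneg_right ?_ hg.le
          rw [hρdef, div_mul_eq_mul_div, div_le_iff₀ (by positivity)]
          nlinarith
        have m5 : avg w (cnt A B f f f) = avg w (cnt A B f f (cv σ f)) +
            avg w (cnt A B f f (fun x => cv σ' f x - cv σ f x)) +
            avg w (cnt A B f f (fun x => f x - cv σ' f x)) := by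
          rw [← avg_add, ← avg_add]
          congr 1
          funext n
          rw [← cnt_add, ← cnt_add]
          congr 1
          funext x
          ring
        rw [m5]
        have := neg_abs_le (avg w (cnt A B f f (fun x => cv σ' f x - cv σ f x)))
        have := neg_abs_le (avg w (cnt A B f f (fun x => f x - cv σ' f x)))
        linarith
      · right
        refine ⟨σ', hσ'.mono (div_le_div_of_nonneg_right (by linarith) hg.le), ?_⟩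
        push Not at hgood
        have e := en_incr hσ hσ' f hfa hδ hs1
        have : 2 * δ = η ^ 2 / 2 := by rw [hδdef]; ring
        rw [this] at e
        push_cast
        linarith

/-- conclusion of the iteration: a weight with many patterns on average -/
theorem exists_good (B0 η : ℝ) (hB0 : 0 ≤ B0) (hη : 0 < η) (hη1 : η ≤ 1) :
    ∃ C : ℝ, 0 ≤ C ∧
    ∀ (G : Type) [AddCommGroup G] [Fintype G] [DecidableEq G] (A B : G →+ G) (I S : Finset G),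
      Function.Bijective B → Function.Bijective (B - A) →
      I.Nonempty → (∀ u ∈ I, ∀ v ∈ I, u - v ∈ S) → (Fintype.card G : ℝ) ≤ B0 * I.card →
      ∀ (f : G → ℝ) (_ : ∀ x, 0 ≤ f x) (_ : ∀ x, f x ≤ 1),
      ∃ w : G → ℝ, Wt S (C / Fintype.card G) w ∧
        (∑ x, f x) ^ 3 / (Fintype.card G : ℝ) ^ 2 - 5 * η * Fintype.card G ≤
          avg w (cnt A B f f f) := by
  obtain ⟨C, h0, h1⟩ := iterate B0 η hB0 hη hη1 (⌊2 / η ^ 2⌋₊ + 1)
  refine ⟨C, h0, ?_⟩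
  intro G _ _ _ A B I S hB hBA hI hS hc f hf0 hf1
  have hg : (0 : ℝ) < Fintype.card G := by exact_mod_cast Fintype.card_pos
  have hfa : ∀ x, |f x| ≤ 1 := fun x => by rw [abs_of_nonneg (hf0 x)]; exact hf1 x
  rcases h1 G A B I S hB hBA hI hS hc f hf0 hf1 with h | ⟨σ, hσ, hσ2⟩
  · exact h
  · exfalso
    have h2 := hσ.en_le f hfa
    have h3 : 2 / η ^ 2 < ((⌊2 / η ^ 2⌋₊ + 1 : ℕ) : ℝ) := by
      push_cast; exact Nat.lt_floor_add_one _
    have h4 : 1 < ((⌊2 / η ^ 2⌋₊ + 1 : ℕ) : ℝ) * (η ^ 2 / 2) := by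
      rw [div_lt_iff₀ (by positivity)] at h3
      linarith
    nlinarith

end Pool.Agent.H467R3.PD
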