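import Mathlib

set_option autoImplicit false
set_option linter.unusedSectionVars false

/-! Fourier analysis on a finite abelian group, for real functions. -/

namespace Pool.Agent.H467R3.PD

open Finset AddChar
open scoped ComplexConjugate

variable {G : Type} [AddCommGroup G] [Fintype G] [DecidableEq G]

/-- Fourier transform of a real function -/
noncomputable def ft (f : G → ℝ) (ψ : AddChar G ℂ) : ℂ := ∑ x, (f x : ℂ) * ψ x

lemma conj_apply (ψ : AddChar G ℂ) (x : G) : conj (ψ x) = ψ (-x) := (map_neg_eq_conj ψ x).symm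

lemma ft_inv (f : G → ℝ) (x : G) :
    ∑ ψ : AddChar G ℂ, ft f ψ * ψ (-x) = (Fintype.card G : ℂ) * f x := by
  unfold ft
  simp_rw [Finset.sum_mul]
  rw [Finset.sum_comm]
  have h1 : ∀ z, ∑ ψ : AddChar G ℂ, (f z : ℂ) * ψ z * ψ (-x) =
      if z = x then (Fintype.card G : ℂ) * f x else 0 := by
    intro z
    have h := sum_apply_eq_ite (z - x)
    have h2 : ∀ ψ : AddChar G ℂ, (f z : ℂ) * ψ z * ψ (-x) = f z * ψ (z - x) := by
      intro ψ
      rw [sub_eq_add_neg, map_add_eq_mul]; ring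
    simp_rw [h2]
    rw [← Finset.mul_sum, h]
    by_cases hz : z = x
    · subst hz; simp; ring
    · simp [hz, sub_eq_zero]
  simp_rw [h1]
  simp

lemma conj_ft (f : G → ℝ) (ψ : AddChar G ℂ) : conj (ft f ψ) = ∑ x, (f x : ℂ) * ψ (-x) := by
  unfold ft
  rw [map_sum]
  refine Finset.sum_congr rfl fun x _ => ?_
  rw [map_mul, conj_apply]
  simp

lemma parseval' (f h : G → ℝ) :
    ∑ ψ : AddChar G ℂ, ft f ψ * conj (ft h ψ) = ((Fintype.card G : ℝ) * ∑ x, f x * h x : ℝ) := by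
  simp_rw [conj_ft, Finset.mul_sum]
  rw [Finset.sum_comm]
  push_cast
  refine Finset.sum_congr rfl fun x _ => ?_
  have := ft_inv f x
  calc ∑ ψ : AddChar G ℂ, ft f ψ * ((h x : ℂ) * ψ (-x))
      = (h x : ℂ) * ∑ ψ : AddChar G ℂ, ft f ψ * ψ (-x) := by
        rw [Finset.mul_sum]; exact Finset.sum_congr rfl fun ψ _ => by ring
    _ = _ := by rw [this]; ring

lemma parseval (f : G → ℝ) :
    ∑ ψ : AddChar G ℂ, ‖ft f ψ‖ ^ 2 = (Fintype.card G : ℝ) * ∑ x, f x ^ 2 := by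
  have h := parseval' f f
  have h2 : ∀ ψ : AddChar G ℂ, ft f ψ * conj (ft f ψ) = ((‖ft f ψ‖ ^ 2 : ℝ) : ℂ) := by
    intro ψ; rw [Complex.mul_conj, Complex.normSq_eq_norm_sq]
  simp_rw [h2] at h
  rw [← Complex.ofReal_sum] at h
  have h3 := Complex.ofReal_injective h
  rw [h3]
  simp_rw [sq]

/-- translate -/
lemma ft_shift (f : G → ℝ) (s : G) (ψ : AddChar G ℂ) :
    ft (fun x => f (x + s)) ψ = ψ (-s) * ft f ψ := by
  unfold ft
  rw [Finset.mul_sum]
  refine Fintype.sum_equiv (Equiv.addRight s) _ _ fun x => ?_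
  simp only [Equiv.coe_addRight]
  rw [map_add_eq_mul]
  have : ψ (-s) * ψ s = 1 := by rw [← map_add_eq_mul]; simp
  calc (f (x + s) : ℂ) * ψ x = f (x + s) * ψ x * (ψ (-s) * ψ s) := by rw [this]; ring
    _ = _ := by ring

lemma norm_psi (ψ : AddChar G ℂ) (x : G) : ‖ψ x‖ = 1 := ψ.norm_apply x

lemma norm_sub_one_sq (ψ : AddChar G ℂ) (x : G) : ‖ψ x - 1‖ ^ 2 = 2 * (1 - (ψ x).re) := by
  have h1 := norm_psi ψ x
  have h2 : (ψ x).re ^ 2 + (ψ x).im ^ 2 = 1 := by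
    have : ‖ψ x‖ ^ 2 = 1 := by rw [h1]; norm_num
    rw [← Complex.normSq_eq_norm_sq, Complex.normSq_apply] at this
    nlinarith
  rw [← Complex.normSq_eq_norm_sq, Complex.normSq_apply]
  simp only [Complex.sub_re, Complex.one_re, Complex.sub_im, Complex.one_im]
  nlinarith

lemma re_le_one (ψ : AddChar G ℂ) (x : G) : (ψ x).re ≤ 1 :=
  (Complex.re_le_norm _).trans (norm_psi ψ x).le

lemma ft_norm_le (f : G → ℝ) (ψ : AddChar G ℂ) : ‖ft f ψ‖ ≤ ∑ x, |f x| := by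
  unfold ft
  refine (norm_sum_le _ _).trans (Finset.sum_le_sum fun x _ => ?_)
  rw [norm_mul, norm_psi, mul_one, Complex.norm_real, Real.norm_eq_abs]

/-- A weight: a probability measure with nonnegative Fourier transform, bounded by `c` pointwise,
supported on `S`. -/
structure Wt (S : Finset G) (c : ℝ) (w : G → ℝ) : Prop where
  nonneg : ∀ x, 0 ≤ w x
  sum_eq : ∑ x, w x = 1
  le : ∀ x, w x ≤ c
  supp : ∀ x, x ∉ S → w x = 0
  pos : ∀ ψ : AddChar G ℂ, ∃ t : ℝ, 0 ≤ t ∧ ft w ψ = t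

variable {S : Finset G} {c : ℝ} {w : G → ℝ}

lemma Wt.ft_eq (hw : Wt S c w) (ψ : AddChar G ℂ) : ft w ψ = ((ft w ψ).re : ℂ) := by
  obtain ⟨t, _, h⟩ := hw.pos ψ
  rw [h]; simp

lemma Wt.re_nonneg (hw : Wt S c w) (ψ : AddChar G ℂ) : 0 ≤ (ft w ψ).re := by
  obtain ⟨t, ht, h⟩ := hw.pos ψ
  rw [h]; simpa using ht

lemma Wt.re_le_one (hw : Wt S c w) (ψ : AddChar G ℂ) : (ft w ψ).re ≤ 1 := by
  refine (Complex.re_le_norm _).trans ((ft_norm_le w ψ).trans ?_)
  simp_rw [abs_of_nonneg (hw.nonneg _)]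
  exact hw.sum_eq.le

lemma Wt.re_eq (_hw : Wt S c w) (ψ : AddChar G ℂ) : (ft w ψ).re = ∑ x, w x * (ψ x).re := by
  unfold ft
  rw [Complex.re_sum]
  refine Finset.sum_congr rfl fun x _ => ?_
  simp

lemma Wt.sum_sq_le (hw : Wt S c w) : ∑ x, w x ^ 2 ≤ c := by
  calc ∑ x, w x ^ 2 ≤ ∑ x, w x * c := by
        refine Finset.sum_le_sum fun x _ => ?_
        rw [sq]; exact mul_le_mul_of_nonneg_left (hw.le x) (hw.nonneg x)
    _ = c := by rw [← Finset.sum_mul, hw.sum_eq, one_mul]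

lemma Wt.norm_ft (hw : Wt S c w) (ψ : AddChar G ℂ) : ‖ft w ψ‖ = (ft w ψ).re := by
  obtain ⟨t, ht, h⟩ := hw.pos ψ
  rw [h]; simp [abs_of_nonneg ht]

lemma Wt.sum_ft_sq_le (hw : Wt S c w) :
    ∑ ψ : AddChar G ℂ, (ft w ψ).re ^ 2 ≤ (Fintype.card G : ℝ) * c := by
  have h := parseval w
  simp_rw [hw.norm_ft] at h
  rw [h]
  exact mul_le_mul_of_nonneg_left hw.sum_sq_le (Nat.cast_nonneg _)

/-- number of large frequencies of a weight -/
lemma Wt.card_large (hw : Wt S c w) {δ : ℝ} (hδ : 0 < δ) :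
    ((Finset.univ.filter fun ψ : AddChar G ℂ => δ ≤ (ft w ψ).re).card : ℝ) * δ ^ 2 ≤
      (Fintype.card G : ℝ) * c := by
  refine le_trans ?_ hw.sum_ft_sq_le
  rw [← nsmul_eq_mul, ← Finset.sum_const]
  refine (Finset.sum_le_sum (f := fun _ => δ ^ 2) (g := fun ψ => (ft w ψ).re ^ 2) ?_).trans
    (Finset.sum_le_sum_of_subset_of_nonneg (Finset.filter_subset _ _) fun _ _ _ => sq_nonneg _)
  intro ψ hψ
  have := (Finset.mem_filter.mp hψ).2
  exact pow_le_pow_left₀ hδ.le this 2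

lemma card_spec (f : G → ℝ) (hf : ∀ x, |f x| ≤ 1) {ρ : ℝ} (hρ : 0 < ρ) :
    ((Finset.univ.filter fun ψ : AddChar G ℂ => ρ * Fintype.card G ≤ ‖ft f ψ‖).card : ℝ) * ρ ^ 2 ≤
      1 := by
  have hg : (0 : ℝ) < Fintype.card G := by exact_mod_cast Fintype.card_pos
  have h := parseval f
  have h1 : ∑ x, f x ^ 2 ≤ (Fintype.card G : ℝ) := by
    calc ∑ x, f x ^ 2 ≤ ∑ _x : G, (1 : ℝ) := by
          refine Finset.sum_le_sum fun x _ => ?_
          rw [← sq_abs]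
          exact pow_le_one₀ (abs_nonneg _) (hf x)
      _ = _ := by simp
  have h2 : ((Finset.univ.filter fun ψ : AddChar G ℂ => ρ * Fintype.card G ≤ ‖ft f ψ‖).card : ℝ) *
      (ρ * Fintype.card G) ^ 2 ≤ (Fintype.card G : ℝ) * Fintype.card G := by
    refine le_trans ?_ (h.le.trans (mul_le_mul_of_nonneg_left h1 hg.le))
    rw [← nsmul_eq_mul, ← Finset.sum_const]
    refine (Finset.sum_le_sum (f := fun _ => (ρ * (Fintype.card G : ℝ)) ^ 2)
      (g := fun ψ => ‖ft f ψ‖ ^ 2) ?_).trans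
      (Finset.sum_le_sum_of_subset_of_nonneg (Finset.filter_subset _ _) fun _ _ _ => sq_nonneg _)
    intro ψ hψ
    have := (Finset.mem_filter.mp hψ).2
    exact pow_le_pow_left₀ (by positivity) this 2
  rw [mul_pow, ← mul_assoc, sq (Fintype.card G : ℝ)] at h2
  have h3 : (0 : ℝ) < Fintype.card G * Fintype.card G := by positivity
  nlinarith [h2, h3]

/-- convolution -/
noncomputable def cv (w f : G → ℝ) (x : G) : ℝ := ∑ y, w y * f (x + y)

lemma Wt.ft_cv (hw : Wt S c w) (f : G → ℝ) (ψ : AddChar G ℂ) :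
    ft (cv w f) ψ = ((ft w ψ).re : ℂ) * ft f ψ := by
  have h1 : ft (cv w f) ψ = ∑ y, (w y : ℂ) * (ψ (-y) * ft f ψ) := by
    have : ∀ x, ((cv w f x : ℝ) : ℂ) * ψ x = ∑ y, (w y : ℂ) * ((f (x + y) : ℂ) * ψ x) := by
      intro x
      unfold cv
      push_cast
      rw [Finset.sum_mul]
      exact Finset.sum_congr rfl fun y _ => by ring
    unfold ft
    simp_rw [this]
    rw [Finset.sum_comm]
    refine Finset.sum_congr rfl fun y _ => ?_
    rw [← Finset.mul_sum]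
    congr 1
    exact ft_shift f y ψ
  rw [h1]
  have h2 : ∑ y, (w y : ℂ) * (ψ (-y) * ft f ψ) = conj (ft w ψ) * ft f ψ := by
    rw [conj_ft, Finset.sum_mul]
    exact Finset.sum_congr rfl fun y _ => by ring
  rw [h2, hw.ft_eq ψ]
  simp

lemma Wt.cv_nonneg (hw : Wt S c w) {f : G → ℝ} (hf : ∀ x, 0 ≤ f x) (x : G) : 0 ≤ cv w f x :=
  Finset.sum_nonneg fun y _ => mul_nonneg (hw.nonneg y) (hf _)

lemma Wt.cv_le_one (hw : Wt S c w) {f : G → ℝ} (hf : ∀ x, f x ≤ 1) (x : G) : cv w f x ≤ 1 := by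
  calc cv w f x ≤ ∑ y, w y * 1 :=
        Finset.sum_le_sum fun y _ => mul_le_mul_of_nonneg_left (hf _) (hw.nonneg y)
    _ = 1 := by simp [hw.sum_eq]

lemma Wt.sum_cv (hw : Wt S c w) (f : G → ℝ) : ∑ x, cv w f x = ∑ x, f x := by
  unfold cv
  rw [Finset.sum_comm]
  have : ∀ y, ∑ x, w y * f (x + y) = w y * ∑ x, f x := by
    intro y
    rw [← Finset.mul_sum]
    congr 1
    exact Fintype.sum_equiv (Equiv.addRight y) _ _ fun x => by simp
  simp_rw [this]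
  rw [← Finset.sum_mul, hw.sum_eq, one_mul]

/-- mean squared variation along a homomorphism -/
lemma Wt.variation (hw : Wt S c w) (h : G → ℝ) (L : G →+ G) :
    ∑ n, w n * ∑ x, (h (x + L n) - h x) ^ 2 =
      (Fintype.card G : ℝ)⁻¹ * ∑ ψ : AddChar G ℂ,
        ‖ft h ψ‖ ^ 2 * (2 * (1 - (ft w (ψ.compAddMonoidHom L)).re)) := by
  have hg : (Fintype.card G : ℝ) ≠ 0 := by exact_mod_cast Fintype.card_ne_zero
  have h1 : ∀ n, ∑ x, (h (x + L n) - h x) ^ 2 =
      (Fintype.card G : ℝ)⁻¹ * ∑ ψ : AddChar G ℂ, ‖ft h ψ‖ ^ 2 * (2 * (1 - (ψ (L n)).re)) := by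
    intro n
    have h2 := parseval (fun x => h (x + L n) - h x)
    have h3 : ∀ ψ : AddChar G ℂ, ft (fun x => h (x + L n) - h x) ψ = (ψ (-L n) - 1) * ft h ψ := by
      intro ψ
      have e := ft_shift h (L n) ψ
      unfold ft at e ⊢
      push_cast
      simp_rw [sub_mul]
      rw [Finset.sum_sub_distrib, e]
      ring
    simp_rw [h3, norm_mul, mul_pow, norm_sub_one_sq] at h2
    have h4 : ∀ ψ : AddChar G ℂ, (ψ (-L n)).re = (ψ (L n)).re := by
      intro ψ; rw [← conj_apply]; simp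
    simp_rw [h4] at h2
    rw [eq_inv_mul_iff_mul_eq₀ hg, ← h2]
    exact Finset.sum_congr rfl fun ψ _ => by ring
  simp_rw [h1]
  have h5 : ∀ n, w n * ((Fintype.card G : ℝ)⁻¹ *
      ∑ ψ : AddChar G ℂ, ‖ft h ψ‖ ^ 2 * (2 * (1 - (ψ (L n)).re))) =
      (Fintype.card G : ℝ)⁻¹ * ∑ ψ : AddChar G ℂ, ‖ft h ψ‖ ^ 2 * (w n * (2 * (1 - (ψ (L n)).re))) := by
    intro n
    rw [← mul_assoc, mul_comm (w n), mul_assoc, Finset.mul_sum (a := w n)]
    congr 1
    exact Finset.sum_congr rfl fun ψ _ => by ring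
  simp_rw [h5]
  rw [← Finset.mul_sum, Finset.sum_comm]
  congr 1
  refine Finset.sum_congr rfl fun ψ _ => ?_
  rw [← Finset.mul_sum]
  congr 1
  rw [hw.re_eq]
  simp only [compAddMonoidHom_apply]
  have h6 : ∑ x, w x * (2 * (1 - (ψ (L x)).re)) = 2 * (∑ x, w x - ∑ x, w x * (ψ (L x)).re) := by
    rw [← Finset.sum_sub_distrib, Finset.mul_sum]
    exact Finset.sum_congr rfl fun x _ => by ring
  rw [h6, hw.sum_eq]

end Pool.Agent.H467R3.PD
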