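import Pool.Agent.H467R3.PD.Pick

set_option autoImplicit false
set_option linter.unusedSectionVars false

/-! Transfer from `(Z/m)^2` to the integer grid. -/

namespace Pool.Agent.H467R3.PD

open Finset AddChar

/-- indicator of the reduction of `A` -/
noncomputable def ind (m : ℕ) (A : Finset (Fin 2 → ℤ)) (x : Fin 2 → ZMod m) : ℝ :=
  if x ∈ A.image (red m) then 1 else 0

lemma ind_nonneg (m : ℕ) (A : Finset (Fin 2 → ℤ)) (x : Fin 2 → ZMod m) : 0 ≤ ind m A x := by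
  unfold ind; split_ifs <;> norm_num

lemma ind_le_one (m : ℕ) (A : Finset (Fin 2 → ℤ)) (x : Fin 2 → ZMod m) : ind m A x ≤ 1 := by
  unfold ind; split_ifs <;> norm_num

lemma ite_mul3 (a b c : Prop) [Decidable a] [Decidable b] [Decidable c]
    [Decidable (a ∧ b ∧ c)] :
    (if a then (1 : ℝ) else 0) * (if b then 1 else 0) * (if c then 1 else 0) =
      if a ∧ b ∧ c then 1 else 0 := by
  by_cases ha : a <;> by_cases hb : b <;> by_cases hc : c <;> simp [ha, hb, hc]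

lemma cnt_le_copies (m : ℕ) [NeZero m] (M₁ M₂ : Matrix (Fin 2) (Fin 2) ℤ)
    (A : Finset (Fin 2 → ℤ)) (N K : ℕ) (hA : ∀ x ∈ A, ∀ i, 1 ≤ x i ∧ x i ≤ N)
    (n : Fin 2 → ℤ) (h1 : ∀ i, |M₁.mulVec n i| ≤ K) (h2 : ∀ i, |M₂.mulVec n i| ≤ K)
    (hm : N + K ≤ m) :
    cnt (toHom m M₂) (toHom m M₁) (ind m A) (ind m A) (ind m A) (red m n) ≤
      ((A.filter fun x => x + M₁.mulVec n ∈ A ∧ x + M₂.mulVec n ∈ A).card : ℝ) := by
  classical
  have hm' : ((N : ℤ) + K) ≤ m := by exact_mod_cast hm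
  have e1 : cnt (toHom m M₂) (toHom m M₁) (ind m A) (ind m A) (ind m A) (red m n) =
      ((Finset.univ.filter fun x : Fin 2 → ZMod m => x ∈ A.image (red m) ∧
        x + toHom m M₂ (red m n) ∈ A.image (red m) ∧
        x + toHom m M₁ (red m n) ∈ A.image (red m)).card : ℝ) := by
    unfold cnt
    rw [Finset.card_filter]
    push_cast
    refine Finset.sum_congr rfl fun x _ => ?_
    unfold ind
    exact ite_mul3 _ _ _
  rw [e1]
  have close : ∀ (M : Matrix (Fin 2) (Fin 2) ℤ) (_ : ∀ i, |M.mulVec n i| ≤ K) (a b : Fin 2 → ℤ),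
      a ∈ A → b ∈ A → red m b = red m a + toHom m M (red m n) → a + M.mulVec n = b := by
    intro M hM a b ha hb h
    rw [toHom_red, ← red_add] at h
    refine (eq_of_red m h ?_).symm
    intro i
    have a1 := hA a ha i
    have b1 := hA b hb i
    have c1 := abs_le.1 (hM i)
    rw [Pi.add_apply, abs_lt]
    constructor <;> omega
  have sub : (Finset.univ.filter fun x : Fin 2 → ZMod m => x ∈ A.image (red m) ∧
        x + toHom m M₂ (red m n) ∈ A.image (red m) ∧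
        x + toHom m M₁ (red m n) ∈ A.image (red m)) ⊆
      (A.filter fun x => x + M₁.mulVec n ∈ A ∧ x + M₂.mulVec n ∈ A).image (red m) := by
    intro x hx
    obtain ⟨_, hx1, hx2, hx3⟩ := Finset.mem_filter.1 hx
    obtain ⟨a, ha, rfl⟩ := Finset.mem_image.1 hx1
    obtain ⟨b, hb, hb'⟩ := Finset.mem_image.1 hx2
    obtain ⟨c, hc, hc'⟩ := Finset.mem_image.1 hx3
    have e2 := close M₂ h2 a b ha hb hb'
    have e3 := close M₁ h1 a c ha hc hc'
    refine Finset.mem_image_of_mem _ (Finset.mem_filter.2 ⟨ha, ?_, ?_⟩)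
    · rw [e3]; exact hc
    · rw [e2]; exact hb
  exact_mod_cast (Finset.card_le_card sub).trans Finset.card_image_le

/-- total size of the entries -/
def ent (M : Matrix (Fin 2) (Fin 2) ℤ) : ℕ := ∑ i, ∑ j, (M i j).natAbs

lemma ent_bound (M : Matrix (Fin 2) (Fin 2) ℤ) (L : ℕ) (n : Fin 2 → ℤ) (hn : n ∈ box L)
    (i : Fin 2) : |M.mulVec n i| ≤ (ent M * L : ℕ) := by
  have h := (mem_box L n).1 hn
  have h0 : |n 0| ≤ L := abs_le.2 ⟨(h 0).1.le, (h 0).2.le⟩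
  have h1 : |n 1| ≤ L := abs_le.2 ⟨(h 1).1.le, (h 1).2.le⟩
  have e1 : M.mulVec n i = M i 0 * n 0 + M i 1 * n 1 := by
    simp [Matrix.mulVec, dotProduct, Fin.sum_univ_two]
  have e2 : |M i 0| + |M i 1| ≤ (ent M : ℕ) := by
    unfold ent
    push_cast
    simp only [Fin.sum_univ_two]
    fin_cases i
    · have := abs_nonneg (M 1 0)
      have := abs_nonneg (M 1 1)
      simp only [Fin.zero_eta, Fin.isValue]
      linarith
    · have := abs_nonneg (M 0 0)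
      have := abs_nonneg (M 0 1)
      simp only [Fin.mk_one, Fin.isValue]
      linarith
  rw [e1]
  calc |M i 0 * n 0 + M i 1 * n 1| ≤ |M i 0 * n 0| + |M i 1 * n 1| := abs_add_le _ _
    _ = |M i 0| * |n 0| + |M i 1| * |n 1| := by rw [abs_mul, abs_mul]
    _ ≤ |M i 0| * L + |M i 1| * L :=
        add_le_add (mul_le_mul_of_nonneg_left h0 (abs_nonneg _))
          (mul_le_mul_of_nonneg_left h1 (abs_nonneg _))
    _ = (|M i 0| + |M i 1|) * L := by ring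
    _ ≤ (ent M : ℕ) * L := mul_le_mul_of_nonneg_right e2 (by positivity)
    _ = _ := by push_cast; ring

lemma sum_ind (m : ℕ) [NeZero m] (A : Finset (Fin 2 → ℤ)) (N : ℕ) (hNm : N ≤ m)
    (hA : ∀ x ∈ A, ∀ i, 1 ≤ x i ∧ x i ≤ N) : ∑ x, ind m A x = (A.card : ℝ) := by
  classical
  unfold ind
  rw [Finset.sum_boole]
  congr 1
  rw [Finset.filter_mem_eq_inter, Finset.univ_inter]
  refine Finset.card_image_of_injOn ?_
  intro x hx y hy h
  have hx' : x ∈ A := hx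
  have hy' : y ∈ A := hy
  refine eq_of_red m h ?_
  intro i
  have a1 := hA x hx' i
  have b1 := hA y hy' i
  have : (N : ℤ) ≤ m := by exact_mod_cast hNm
  rw [abs_lt]
  constructor <;> omega

/-- numerical core -/
lemma numeric {α e κ η C N m R a g : ℝ} (hα : 0 < α) (he : 0 < e) (heα : e ≤ α ^ 3)
    (hκ : κ = e / (16 * α ^ 3)) (hη0 : 0 < η) (hη : η ≤ e / 80) (hC : 0 ≤ C)
    (hN : 0 < N) (hNm : N ≤ m) (hm : m ≤ (1 + κ) * N) (hR : R ≤ 2 * N)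
    (hCN : 32 * C / e < N) (ha : α * N ^ 2 ≤ a) (hg : g = m ^ 2) :
    (α ^ 3 - e) * N ^ 2 + 4 * R * C < a ^ 3 / g ^ 2 - 5 * η * g := by
  have hα3 : 0 < α ^ 3 := by positivity
  have hκ0 : 0 < κ := by rw [hκ]; positivity
  have hκ1 : κ ≤ 1 / 16 := by
    rw [hκ, div_le_div_iff₀ (by positivity) (by norm_num)]
    nlinarith
  have hm0 : 0 < m := by linarith
  have hα4 : 4 * κ * α ^ 3 = e / 4 := by rw [hκ]; field_simp; ring
  -- power comparison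
  have p1 : (1 - 4 * κ) * m ^ 4 ≤ N ^ 4 := by
    have b1 : 1 - 4 * κ ≤ (1 - κ) ^ 4 := by
      have := one_add_mul_le_pow (a := -κ) (by linarith) 4
      push_cast at this
      have e1 : (1 + -κ) ^ 4 = (1 - κ) ^ 4 := by ring
      rw [e1] at this
      linarith
    have b2 : m ^ 4 ≤ ((1 + κ) * N) ^ 4 := pow_le_pow_left₀ hm0.le hm 4
    have b3 : (1 - κ) ^ 4 * ((1 + κ) * N) ^ 4 = ((1 - κ ^ 2)) ^ 4 * N ^ 4 := by ring
    have b4 : (1 - κ ^ 2) ^ 4 ≤ 1 := pow_le_one₀ (by nlinarith) (by nlinarith)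
    calc (1 - 4 * κ) * m ^ 4 ≤ (1 - κ) ^ 4 * m ^ 4 :=
          mul_le_mul_of_nonneg_right b1 (by positivity)
      _ ≤ (1 - κ) ^ 4 * ((1 + κ) * N) ^ 4 := mul_le_mul_of_nonneg_left b2 (by positivity)
      _ = ((1 - κ ^ 2)) ^ 4 * N ^ 4 := b3
      _ ≤ 1 * N ^ 4 := mul_le_mul_of_nonneg_right b4 (by positivity)
      _ = _ := one_mul _
  have p2 : (α ^ 3 - e / 4) * N ^ 2 ≤ a ^ 3 / g ^ 2 := by
    rw [hg, le_div_iff₀ (by positivity)]
    have c1 : (α * N ^ 2) ^ 3 ≤ a ^ 3 := pow_le_pow_left₀ (by positivity) ha 3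
    have c2 : (α ^ 3 - e / 4) * N ^ 2 * (m ^ 2) ^ 2 = α ^ 3 * N ^ 2 * ((1 - 4 * κ) * m ^ 4) := by
      rw [← hα4]; ring
    rw [c2]
    calc α ^ 3 * N ^ 2 * ((1 - 4 * κ) * m ^ 4) ≤ α ^ 3 * N ^ 2 * N ^ 4 :=
          mul_le_mul_of_nonneg_left p1 (by positivity)
      _ = (α * N ^ 2) ^ 3 := by ring
      _ ≤ a ^ 3 := c1
  have p3 : 5 * η * g ≤ e / 4 * N ^ 2 := by
    have c0 : m ≤ 2 * N := by nlinarith
    have c1 : g ≤ 4 * N ^ 2 := by rw [hg]; nlinarith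
    calc 5 * η * g ≤ 5 * η * (4 * N ^ 2) := mul_le_mul_of_nonneg_left c1 (by positivity)
      _ = 20 * η * N ^ 2 := by ring
      _ ≤ e / 4 * N ^ 2 := mul_le_mul_of_nonneg_right (by linarith) (by positivity)
  have p4 : 4 * R * C ≤ e / 4 * N ^ 2 := by
    have c1 : 32 * C ≤ N * e := by
      rw [div_lt_iff₀ he] at hCN; exact hCN.le
    have c2 : 4 * R * C ≤ 8 * N * C := mul_le_mul_of_nonneg_right (by linarith) hC
    nlinarith
  have p5 : 0 < e * N ^ 2 := by positivity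
  nlinarith

lemma core (M₁ M₂ : Matrix (Fin 2) (Fin 2) ℤ) (h1 : M₁.det ≠ 0) (h2 : M₂ ≠ 0)
    (m N R K : ℕ) [NeZero m] (u1 : IsUnit ((M₁.det : ℤ) : ZMod m))
    (u2 : IsUnit (((M₁ - M₂).det : ℤ) : ZMod m)) (hNm : N + K ≤ m)
    (hK : (ent M₁ + ent M₂) * (2 * R) ≤ K) (hRm : R ≤ m) (hR0 : 0 < R)
    (A : Finset (Fin 2 → ℤ)) (hA : ∀ x ∈ A, ∀ i, 1 ≤ x i ∧ x i ≤ N)
    (B0 η C V : ℝ) (hC : 0 ≤ C) (hV : 0 ≤ V)
    (hmain : ∀ (A B : (Fin 2 → ZMod m) →+ (Fin 2 → ZMod m)) (I S : Finset (Fin 2 → ZMod m)),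
      Function.Bijective B → Function.Bijective (B - A) →
      I.Nonempty → (∀ u ∈ I, ∀ v ∈ I, u - v ∈ S) →
      (Fintype.card (Fin 2 → ZMod m) : ℝ) ≤ B0 * I.card →
      ∀ (f : (Fin 2 → ZMod m) → ℝ) (_ : ∀ x, 0 ≤ f x) (_ : ∀ x, f x ≤ 1),
      ∃ w : (Fin 2 → ZMod m) → ℝ, Wt S (C / Fintype.card (Fin 2 → ZMod m)) w ∧
        (∑ x, f x) ^ 3 / (Fintype.card (Fin 2 → ZMod m) : ℝ) ^ 2 -
          5 * η * Fintype.card (Fin 2 → ZMod m) ≤ avg w (cnt A B f f f))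
    (hsize : (m : ℝ) ^ 2 ≤ B0 * (R : ℝ) ^ 2)
    (hnum : V + 4 * R * C < (A.card : ℝ) ^ 3 / ((m : ℝ) ^ 2) ^ 2 - 5 * η * (m : ℝ) ^ 2) :
    ∃ n : Fin 2 → ℤ, M₁.mulVec n ≠ 0 ∧ M₂.mulVec n ≠ 0 ∧
        V < ((A.filter fun x => x + M₁.mulVec n ∈ A ∧ x + M₂.mulVec n ∈ A).card : ℝ) := by
  classical
  have hcardG : (Fintype.card (Fin 2 → ZMod m) : ℝ) = (m : ℝ) ^ 2 := by
    have : Fintype.card (Fin 2 → ZMod m) = m ^ 2 := by
      simp [ZMod.card]
    rw [this]; push_cast; rfl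
  -- the sets
  obtain ⟨I₀, hI₀⟩ : ∃ I₀ : Finset (Fin 2 → ℤ),
      I₀ = Fintype.piFinset fun _ => Finset.Ico (0 : ℤ) R := ⟨_, rfl⟩
  have hmemI : ∀ x : Fin 2 → ℤ, x ∈ I₀ ↔ ∀ i, 0 ≤ x i ∧ x i < R := by
    intro x; simp [hI₀]
  obtain ⟨I, hI⟩ : ∃ I : Finset (Fin 2 → ZMod m), I = I₀.image (red m) := ⟨_, rfl⟩
  have hIcard : I.card = R ^ 2 := by
    rw [hI, Finset.card_image_of_injOn]
    · rw [hI₀, Fintype.card_piFinset]; simp
    · intro x hx y hy h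
      have hx' := (hmemI x).1 hx
      have hy' := (hmemI y).1 hy
      refine eq_of_red m h ?_
      intro i
      have a1 := hx' i
      have b1 := hy' i
      have : (R : ℤ) ≤ m := by exact_mod_cast hRm
      rw [abs_lt]
      constructor <;> omega
  obtain ⟨S, hS⟩ : ∃ S : Finset (Fin 2 → ZMod m), S = (box R).image (red m) := ⟨_, rfl⟩
  have hIne : I.Nonempty := by
    rw [← Finset.card_pos, hIcard]; positivity
  have hIS : ∀ u ∈ I, ∀ v ∈ I, u - v ∈ S := by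
    intro u hu v hv
    rw [hI] at hu hv
    obtain ⟨x, hx, rfl⟩ := Finset.mem_image.1 hu
    obtain ⟨y, hy, rfl⟩ := Finset.mem_image.1 hv
    rw [← red_sub, hS]
    refine Finset.mem_image_of_mem _ ((mem_box R _).2 fun i => ?_)
    have a1 := (hmemI x).1 hx i
    have b1 := (hmemI y).1 hy i
    rw [Pi.sub_apply]
    constructor <;> omega
  have hsize' : (Fintype.card (Fin 2 → ZMod m) : ℝ) ≤ B0 * I.card := by
    rw [hcardG, hIcard]
    push_cast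
    exact hsize
  have hbij1 : Function.Bijective (toHom m M₁) := toHom_bij m M₁ u1
  have hbij2 : Function.Bijective (toHom m M₁ - toHom m M₂) := by
    rw [toHom_sub]
    exact toHom_bij m _ u2
  obtain ⟨w, hw, hw2⟩ := hmain (toHom m M₂) (toHom m M₁) I S hbij1 hbij2 hIne hIS hsize'
    (ind m A) (ind_nonneg m A) (ind_le_one m A)
  have hsum : ∑ x, ind m A x = (A.card : ℝ) := sum_ind m A N (by omega) hA
  obtain ⟨Bad, hBad⟩ : ∃ Bad : Finset (Fin 2 → ZMod m),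
      Bad = ((box (2 * R)).filter fun n => M₂.mulVec n = 0).image (red m) := ⟨_, rfl⟩
  have hBadcard : (Bad.card : ℝ) ≤ 4 * R := by
    have a1 : Bad.card ≤ 2 * (2 * R) := by
      rw [hBad]
      exact Finset.card_image_le.trans (card_bad M₂ h2 (2 * R))
    have a2 : (Bad.card : ℝ) ≤ ((2 * (2 * R) : ℕ) : ℝ) := by exact_mod_cast a1
    push_cast at a2
    linarith
  have hgpos : (0 : ℝ) < Fintype.card (Fin 2 → ZMod m) := by exact_mod_cast Fintype.card_pos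
  rw [hsum] at hw2
  have hFle : ∀ n, cnt (toHom m M₂) (toHom m M₁) (ind m A) (ind m A) (ind m A) n ≤
      Fintype.card (Fin 2 → ZMod m) := by
    intro n
    refine (le_abs_self _).trans ((cnt_abs_le _ _ _ _ (ind_nonneg m A) (ind_le_one m A) n).trans ?_)
    calc ∑ x, |ind m A x| ≤ ∑ _x : (Fin 2 → ZMod m), (1 : ℝ) := by
          refine Finset.sum_le_sum fun x _ => ?_
          rw [abs_of_nonneg (ind_nonneg m A x)]
          exact ind_le_one m A x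
      _ = _ := by simp
  obtain ⟨n₁, hn₁, n₂, hn₂, hnb, hbig⟩ := pick hw
    (cnt (toHom m M₂) (toHom m M₁) (ind m A) (ind m A) (ind m A)) hFle hgpos.le Bad hV (by
      have a1 : (Bad.card : ℝ) * (C / Fintype.card (Fin 2 → ZMod m)) *
          Fintype.card (Fin 2 → ZMod m) ≤ 4 * R * C := by
        have : (Bad.card : ℝ) * (C / Fintype.card (Fin 2 → ZMod m)) *
          Fintype.card (Fin 2 → ZMod m) = Bad.card * C := by
          field_simp
        rw [this]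
        exact mul_le_mul_of_nonneg_right hBadcard hC
      rw [hcardG] at hw2 a1 ⊢
      linarith)
  rw [hS] at hn₁ hn₂
  obtain ⟨x₁, hx₁, rfl⟩ := Finset.mem_image.1 hn₁
  obtain ⟨x₂, hx₂, rfl⟩ := Finset.mem_image.1 hn₂
  rw [← red_sub] at hnb hbig
  obtain ⟨n, hn⟩ : ∃ n, n = x₁ - x₂ := ⟨_, rfl⟩
  rw [← hn] at hnb hbig
  have hnbox : n ∈ box (2 * R) := by
    rw [mem_box]
    intro i
    have a1 := (mem_box R x₁).1 hx₁ i
    have b1 := (mem_box R x₂).1 hx₂ i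
    rw [hn, Pi.sub_apply]
    push_cast
    constructor <;> omega
  have hM2 : M₂.mulVec n ≠ 0 := by
    intro h
    apply hnb
    rw [hBad]
    exact Finset.mem_image_of_mem _ (Finset.mem_filter.2 ⟨hnbox, h⟩)
  have hM1 : M₁.mulVec n ≠ 0 := by
    intro h
    have : n = 0 := Matrix.eq_zero_of_mulVec_eq_zero h1 h
    apply hM2
    rw [this, Matrix.mulVec_zero]
  refine ⟨n, hM1, hM2, ?_⟩
  have hb1 : ∀ i, |M₁.mulVec n i| ≤ (K : ℤ) := by
    intro i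
    refine (ent_bound M₁ (2 * R) n hnbox i).trans ?_
    have : ent M₁ * (2 * R) ≤ K := (Nat.mul_le_mul_right _ (by omega)).trans hK
    exact_mod_cast this
  have hb2 : ∀ i, |M₂.mulVec n i| ≤ (K : ℤ) := by
    intro i
    refine (ent_bound M₂ (2 * R) n hnbox i).trans ?_
    have : ent M₂ * (2 * R) ≤ K := (Nat.mul_le_mul_right _ (by omega)).trans hK
    exact_mod_cast this
  exact hbig.trans_le (cnt_le_copies m M₁ M₂ A N K hA n hb1 hb2 hNm)

theorem main (M₁ M₂ : Matrix (Fin 2) (Fin 2) ℤ) (h1 : M₁.det ≠ 0) (h3 : (M₁ - M₂).det ≠ 0)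
    (h2 : M₂ ≠ 0) (α ε : ℝ) (hα : 0 < α) (hε : 0 < ε) :
    ∃ N₀ : ℕ, ∀ N : ℕ, N₀ ≤ N → ∀ A : Finset (Fin 2 → ℤ),
      (∀ x ∈ A, ∀ i, 1 ≤ x i ∧ x i ≤ N) → α * (N : ℝ) ^ 2 ≤ A.card →
      ∃ n : Fin 2 → ℤ, M₁.mulVec n ≠ 0 ∧ M₂.mulVec n ≠ 0 ∧
        (α ^ 3 - ε) * (N : ℝ) ^ 2 <
          ((A.filter fun x => x + M₁.mulVec n ∈ A ∧ x + M₂.mulVec n ∈ A).card : ℝ) := by
  classical
  have hα3 : 0 < α ^ 3 := by positivity
  obtain ⟨e, hedef⟩ : ∃ e : ℝ, e = min ε (α ^ 3) := ⟨_, rfl⟩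
  have he : 0 < e := by rw [hedef]; exact lt_min hε hα3
  have heε : e ≤ ε := by rw [hedef]; exact min_le_left _ _
  have heα : e ≤ α ^ 3 := by rw [hedef]; exact min_le_right _ _
  obtain ⟨κ, hκdef⟩ : ∃ κ : ℝ, κ = e / (16 * α ^ 3) := ⟨_, rfl⟩
  have hκ : 0 < κ := by rw [hκdef]; positivity
  have hκ1 : κ ≤ 1 / 16 := by
    rw [hκdef, div_le_div_iff₀ (by positivity) (by norm_num)]
    nlinarith
  obtain ⟨H, hH⟩ : ∃ H : ℕ, H = ent M₁ + ent M₂ + 1 := ⟨_, rfl⟩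
  obtain ⟨D, hD⟩ : ∃ D : ℕ, D = ⌈4 * (H : ℝ) / κ⌉₊ + 1 := ⟨_, rfl⟩
  have hD0 : 0 < D := by omega
  have hDr : 4 * (H : ℝ) / κ ≤ D := by
    rw [hD]; push_cast
    exact (Nat.le_ceil _).trans (by linarith)
  obtain ⟨Δ, hΔ⟩ : ∃ Δ : ℤ, Δ = M₁.det * (M₁ - M₂).det := ⟨_, rfl⟩
  have hΔ0 : Δ ≠ 0 := by rw [hΔ]; exact mul_ne_zero h1 h3
  have hΔpos : 0 < Δ.natAbs := Int.natAbs_pos.2 hΔ0
  obtain ⟨η, hηdef⟩ : ∃ η : ℝ, η = min 1 (e / 80) := ⟨_, rfl⟩
  have hη : 0 < η := by rw [hηdef]; exact lt_min one_pos (by positivity)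
  have hη1 : η ≤ 1 := by rw [hηdef]; exact min_le_left _ _
  have hη2 : η ≤ e / 80 := by rw [hηdef]; exact min_le_right _ _
  obtain ⟨C, hC, hmain⟩ := exists_good (4 * (D : ℝ) ^ 2) η (by positivity) hη hη1
  refine ⟨⌈2 * (2 * (H : ℝ) + Δ.natAbs + 1) / κ⌉₊ + ⌈32 * C / e⌉₊ + 1, ?_⟩
  intro N hN A hA hcard
  have hN1 : 1 ≤ N := by omega
  have hNr : (0 : ℝ) < N := by exact_mod_cast hN1
  have hNb1 : 2 * (2 * (H : ℝ) + Δ.natAbs + 1) / κ ≤ N := by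
    refine (Nat.le_ceil _).trans ?_
    exact_mod_cast (by omega : ⌈2 * (2 * (H : ℝ) + Δ.natAbs + 1) / κ⌉₊ ≤ N)
  have hNb2 : 32 * C / e < N := by
    refine lt_of_le_of_lt (Nat.le_ceil _) ?_
    exact_mod_cast (by omega : ⌈32 * C / e⌉₊ < N)
  obtain ⟨R, hR⟩ : ∃ R : ℕ, R = N / D + 1 := ⟨_, rfl⟩
  obtain ⟨K, hK⟩ : ∃ K : ℕ, K = H * (2 * R) := ⟨_, rfl⟩
  obtain ⟨m, hm⟩ : ∃ m : ℕ, m = Δ.natAbs * ((N + K) / Δ.natAbs + 1) + 1 := ⟨_, rfl⟩
  have hmlow : N + K < m := by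
    have := Nat.lt_mul_div_succ (N + K) hΔpos
    rw [hm]; omega
  have hmup : m ≤ N + K + Δ.natAbs + 1 := by
    have := Nat.mul_div_le (N + K) Δ.natAbs
    rw [hm, mul_add, mul_one]; omega
  have : NeZero m := ⟨by omega⟩
  have hRD : N < D * R := by rw [hR]; exact Nat.lt_mul_div_succ N hD0
  have hRr : (R : ℝ) ≤ N / D + 1 := by
    rw [hR]; push_cast
    have := Nat.cast_div_le (m := N) (n := D) (α := ℝ)
    linarith
  have hR0 : 0 < R := by rw [hR]; exact Nat.succ_pos _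
  have hD1 : (1 : ℝ) ≤ D := by exact_mod_cast hD0
  have hR2N : (R : ℝ) ≤ 2 * N := by
    have a1 : (N : ℝ) / D ≤ N := div_le_self hNr.le hD1
    have a2 : (1 : ℝ) ≤ N := by exact_mod_cast hN1
    linarith
  have hmr : (m : ℝ) ≤ (1 + κ) * N := by
    have a1 : (m : ℝ) ≤ N + K + Δ.natAbs + 1 := by exact_mod_cast hmup
    have a2 : (K : ℝ) ≤ 2 * H * (N / D) + 2 * H := by
      rw [hK]; push_cast
      have : (H : ℝ) * (2 * R) ≤ H * (2 * (N / D + 1)) :=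
        mul_le_mul_of_nonneg_left (by linarith) (by positivity)
      linarith
    have a3 : 2 * (H : ℝ) * (N / D) ≤ κ / 2 * N := by
      have hDp : (0 : ℝ) < D := by linarith
      rw [div_le_iff₀ hκ] at hDr
      rw [← mul_div_assoc, div_le_iff₀ hDp]
      nlinarith
    have a4 : 2 * (H : ℝ) + Δ.natAbs + 1 ≤ κ / 2 * N := by
      rw [div_le_iff₀ hκ] at hNb1
      linarith
    linarith
  have hH' : ent M₁ + ent M₂ ≤ H := by omega
  have hNm' : N ≤ m := by omega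
  have hNmr : (N : ℝ) ≤ m := by exact_mod_cast hNm'
  have hK' : (ent M₁ + ent M₂) * (2 * R) ≤ K := by
    rw [hK]; exact Nat.mul_le_mul_right _ hH'
  have hRm : R ≤ m := by
    have : R ≤ K := by
      rw [hK, hH]
      nlinarith
    omega
  have hsize : (m : ℝ) ^ 2 ≤ 4 * (D : ℝ) ^ 2 * (R : ℝ) ^ 2 := by
    have a1 : (N : ℝ) ≤ D * R := by exact_mod_cast hRD.le
    have a2 : (m : ℝ) ≤ 2 * (D * R) := by nlinarith
    have a3 : (0 : ℝ) ≤ m := by positivity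
    nlinarith
  have hnum := numeric (R := R) (g := (m : ℝ) ^ 2) hα he heα hκdef hη hη2 hC hNr
    hNmr hmr hR2N hNb2 hcard rfl
  have hV : 0 ≤ (α ^ 3 - e) * (N : ℝ) ^ 2 := mul_nonneg (by linarith) (by positivity)
  obtain ⟨n, hn1, hn2, hn3⟩ := core M₁ M₂ h1 h2 m N R K
    (isUnit_of_dvd m _ Δ (hΔ ▸ Dvd.intro _ rfl) _ hm)
    (isUnit_of_dvd m _ Δ (hΔ ▸ Dvd.intro_left _ rfl) _ hm) hmlow.le
    hK' hRm hR0 A hA
    (4 * (D : ℝ) ^ 2) η C _ hC hV (hmain (Fin 2 → ZMod m)) hsize hnum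
  refine ⟨n, hn1, hn2, lt_of_le_of_lt ?_ hn3⟩
  exact mul_le_mul_of_nonneg_right (by linarith) (by positivity)

end Pool.Agent.H467R3.PD
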