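import Pool.Agent.H467R3.PD.Count

set_option autoImplicit false
set_option linter.unusedSectionVars false

/-! The main term. -/

namespace Pool.Agent.H467R3.PD

open Finset AddChar
open scoped ComplexConjugate

variable {G : Type} [AddCommGroup G] [Fintype G] [DecidableEq G]
variable {S : Finset G} {c : ℝ} {w : G → ℝ}

/-- average of `f` along `L` -/
noncomputable def cvL (w f : G → ℝ) (L : G →+ G) (x : G) : ℝ := ∑ y, w y * f (x + L y)

lemma Wt.ft_cvL (hw : Wt S c w) (f : G → ℝ) (L : G →+ G) (ψ : AddChar G ℂ) :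
    ft (cvL w f L) ψ = ((ft w (ψ.compAddMonoidHom L)).re : ℂ) * ft f ψ := by
  have h1 : ft (cvL w f L) ψ = ∑ y, (w y : ℂ) * (ψ (-L y) * ft f ψ) := by
    have : ∀ x, ((cvL w f L x : ℝ) : ℂ) * ψ x = ∑ y, (w y : ℂ) * ((f (x + L y) : ℂ) * ψ x) := by
      intro x
      unfold cvL
      push_cast
      rw [Finset.sum_mul]
      exact Finset.sum_congr rfl fun y _ => by ring
    unfold ft
    simp_rw [this]
    rw [Finset.sum_comm]
    refine Finset.sum_congr rfl fun y _ => ?_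
    rw [← Finset.mul_sum]
    congr 1
    exact ft_shift f (L y) ψ
  rw [h1]
  have h2 : ∑ y, (w y : ℂ) * (ψ (-L y) * ft f ψ) =
      conj (ft w (ψ.compAddMonoidHom L)) * ft f ψ := by
    rw [conj_ft, Finset.sum_mul]
    refine Finset.sum_congr rfl fun y _ => ?_
    rw [compAddMonoidHom_apply, L.map_neg]; ring
  rw [h2, hw.ft_eq]
  simp

lemma sum_shift (F : G → ℝ) (s : G) : ∑ x, F (x + s) = ∑ x, F x :=
  Fintype.sum_equiv (Equiv.addRight s) _ _ fun x => by simp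

/-- L¹ variation -/
noncomputable def var1 (w h : G → ℝ) (L : G →+ G) : ℝ := ∑ n, w n * ∑ x, |h (x + L n) - h x|

variable {c' : ℝ} {σ : G → ℝ}

lemma variation_le (hσ : Wt S c' σ) (hw : Wt S c w) (f : G → ℝ) (hf : ∀ x, |f x| ≤ 1)
    (L : G →+ G) {δ : ℝ} (hδ : 0 < δ) (hδ1 : δ ≤ 1)
    (h : ∀ ψ : AddChar G ℂ, δ ≤ (ft σ ψ).re → 1 - δ ≤ (ft w (ψ.compAddMonoidHom L)).re) :
    ∑ n, w n * ∑ x, (cv σ f (x + L n) - cv σ f x) ^ 2 ≤ 2 * δ * Fintype.card G := by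
  have hg : (0 : ℝ) < Fintype.card G := by exact_mod_cast Fintype.card_pos
  rw [hw.variation (cv σ f) L, inv_mul_le_iff₀ hg]
  have h1 : ∀ ψ : AddChar G ℂ, ‖ft (cv σ f) ψ‖ ^ 2 *
      (2 * (1 - (ft w (ψ.compAddMonoidHom L)).re)) ≤ ‖ft f ψ‖ ^ 2 * (2 * δ) := by
    intro ψ
    rw [hσ.ft_cv, norm_mul, mul_pow, Complex.norm_real, Real.norm_eq_abs,
      abs_of_nonneg (hσ.re_nonneg ψ)]
    have a0 := hσ.re_nonneg ψ
    have a1 := hσ.re_le_one ψ
    have b0 := hw.re_nonneg (ψ.compAddMonoidHom L)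
    have b1 := hw.re_le_one (ψ.compAddMonoidHom L)
    have key : (ft σ ψ).re ^ 2 * (2 * (1 - (ft w (ψ.compAddMonoidHom L)).re)) ≤ 2 * δ := by
      by_cases hψ : δ ≤ (ft σ ψ).re
      · have := h ψ hψ
        have h2 : (ft σ ψ).re ^ 2 ≤ 1 := pow_le_one₀ a0 a1
        nlinarith
      · push Not at hψ
        have h2 : (ft σ ψ).re ^ 2 ≤ δ := by nlinarith
        nlinarith
    nlinarith [mul_le_mul_of_nonneg_left key (sq_nonneg ‖ft f ψ‖)]
  refine (Finset.sum_le_sum fun ψ _ => h1 ψ).trans ?_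
  rw [← Finset.sum_mul, parseval]
  have := sq_sum_le_card f hf
  nlinarith [mul_le_mul_of_nonneg_left this hg.le, mul_le_mul_of_nonneg_left
    (mul_le_mul_of_nonneg_left this hg.le) hδ.le]

lemma var1_le (hσ : Wt S c' σ) (hw : Wt S c w) (f : G → ℝ) (hf : ∀ x, |f x| ≤ 1)
    (L : G →+ G) {δ η : ℝ} (hδ : 0 < δ) (hδ1 : δ ≤ 1) (hη : 0 < η) (hδη : 2 * δ ≤ η ^ 2)
    (h : ∀ ψ : AddChar G ℂ, δ ≤ (ft σ ψ).re → 1 - δ ≤ (ft w (ψ.compAddMonoidHom L)).re) :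
    var1 w (cv σ f) L ≤ η * Fintype.card G := by
  have hg : (0 : ℝ) < Fintype.card G := by exact_mod_cast Fintype.card_pos
  have h1 := variation_le hσ hw f hf L hδ hδ1 h
  have h2 : ∀ d : ℝ, |d| ≤ (2 * η)⁻¹ * d ^ 2 + η / 2 := by
    intro d
    have : (2 * η)⁻¹ * d ^ 2 + η / 2 - |d| = (2 * η)⁻¹ * (|d| - η) ^ 2 := by
      rw [← sq_abs d]; field_simp; ring
    have h3 : 0 ≤ (2 * η)⁻¹ * (|d| - η) ^ 2 := by positivity
    linarith
  have h4 : var1 w (cv σ f) L ≤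
      ∑ n, w n * ∑ x, ((2 * η)⁻¹ * (cv σ f (x + L n) - cv σ f x) ^ 2 + η / 2) := by
    refine Finset.sum_le_sum fun n _ => mul_le_mul_of_nonneg_left ?_ (hw.nonneg n)
    exact Finset.sum_le_sum fun x _ => h2 _
  have h5 : ∑ n, w n * ∑ x, ((2 * η)⁻¹ * (cv σ f (x + L n) - cv σ f x) ^ 2 + η / 2) =
      (2 * η)⁻¹ * ∑ n, w n * ∑ x, (cv σ f (x + L n) - cv σ f x) ^ 2 +
        η / 2 * Fintype.card G := by
    have : ∀ n, w n * ∑ x, ((2 * η)⁻¹ * (cv σ f (x + L n) - cv σ f x) ^ 2 + η / 2) =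
        (2 * η)⁻¹ * (w n * ∑ x, (cv σ f (x + L n) - cv σ f x) ^ 2) +
          w n * (η / 2 * Fintype.card G) := by
      intro n
      rw [Finset.sum_add_distrib, ← Finset.mul_sum]
      simp
      ring
    simp_rw [this]
    rw [Finset.sum_add_distrib, ← Finset.mul_sum, ← Finset.sum_mul, hw.sum_eq, one_mul]
  rw [h5] at h4
  refine h4.trans ?_
  have h6 : (2 * η)⁻¹ * ∑ n, w n * ∑ x, (cv σ f (x + L n) - cv σ f x) ^ 2 ≤
      (2 * η)⁻¹ * (η ^ 2 * Fintype.card G) := by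
    refine mul_le_mul_of_nonneg_left (h1.trans ?_) (by positivity)
    exact mul_le_mul_of_nonneg_right hδη hg.le
  have h7 : (2 * η)⁻¹ * (η ^ 2 * (Fintype.card G : ℝ)) = η / 2 * Fintype.card G := by
    field_simp
  rw [h7] at h6
  linarith

/-- lower bound for the main term without shifts -/
lemma main_lower (hσ : Wt S c' σ) (hw : Wt S c w) (f : G → ℝ) (hf0 : ∀ x, 0 ≤ f x)
    (A : G →+ G) :
    (∑ x, f x) ^ 3 / (Fintype.card G : ℝ) ^ 2 ≤ ∑ x, cv σ f x * cvL w f A x ^ 2 := by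
  have hg : (0 : ℝ) < Fintype.card G := by exact_mod_cast Fintype.card_pos
  set g : ℝ := ((Fintype.card G : ℕ) : ℝ) with hgdef
  set m : ℝ := ∑ x, f x with hm
  have hm0 : 0 ≤ m := Finset.sum_nonneg fun x _ => hf0 x
  have h1 : m ^ 2 / g ≤ ∑ x, cv σ f x * cvL w f A x := by
    have e := parseval' (cv σ f) (cvL w f A)
    have e1 : ∀ ψ : AddChar G ℂ, ft (cv σ f) ψ * conj (ft (cvL w f A) ψ) =
        (((ft σ ψ).re * (ft w (ψ.compAddMonoidHom A)).re * ‖ft f ψ‖ ^ 2 : ℝ) : ℂ) := by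
      intro ψ
      rw [hσ.ft_cv, hw.ft_cvL, map_mul, Complex.conj_ofReal]
      have : ft f ψ * conj (ft f ψ) = ((‖ft f ψ‖ ^ 2 : ℝ) : ℂ) := by
        rw [Complex.mul_conj, Complex.normSq_eq_norm_sq]
      push_cast at this ⊢
      rw [← this]; ring
    simp_rw [e1] at e
    rw [← Complex.ofReal_sum] at e
    have e2 := Complex.ofReal_injective e
    have e3 : m ^ 2 ≤ ∑ ψ : AddChar G ℂ,
        (ft σ ψ).re * (ft w (ψ.compAddMonoidHom A)).re * ‖ft f ψ‖ ^ 2 := by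
      have t0 : (ft σ 0).re * (ft w ((0 : AddChar G ℂ).compAddMonoidHom A)).re *
          ‖ft f 0‖ ^ 2 = m ^ 2 := by
        have a1 : ft σ 0 = 1 := by
          unfold ft
          simp only [AddChar.zero_apply, mul_one]
          rw [← Complex.ofReal_sum, hσ.sum_eq]; simp
        have a2 : ft w ((0 : AddChar G ℂ).compAddMonoidHom A) = 1 := by
          unfold ft
          simp only [compAddMonoidHom_apply, AddChar.zero_apply, mul_one]
          rw [← Complex.ofReal_sum, hw.sum_eq]; simp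
        have a3 : ft f 0 = (m : ℂ) := by
          unfold ft
          simp only [AddChar.zero_apply, mul_one]
          rw [← Complex.ofReal_sum]
        rw [a1, a2, a3, Complex.norm_real, Real.norm_eq_abs, sq_abs]; simp
      rw [← t0]
      refine Finset.single_le_sum (f := fun ψ : AddChar G ℂ =>
        (ft σ ψ).re * (ft w (ψ.compAddMonoidHom A)).re * ‖ft f ψ‖ ^ 2) (fun ψ _ => ?_)
        (Finset.mem_univ 0)
      exact mul_nonneg (mul_nonneg (hσ.re_nonneg _) (hw.re_nonneg _)) (sq_nonneg _)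
    rw [e2] at e3
    rw [div_le_iff₀ hg]
    linarith
  have h2 : ∑ x, cv σ f x = m := hσ.sum_cv f
  have h3 : ∀ x, cv σ f x * (2 * (m / g) * cvL w f A x - (m / g) ^ 2) ≤
      cv σ f x * cvL w f A x ^ 2 := by
    intro x
    refine mul_le_mul_of_nonneg_left ?_ (hσ.cv_nonneg hf0 x)
    nlinarith [sq_nonneg (cvL w f A x - m / g)]
  have h4 : ∑ x, cv σ f x * (2 * (m / g) * cvL w f A x - (m / g) ^ 2) =
      2 * (m / g) * ∑ x, cv σ f x * cvL w f A x - (m / g) ^ 2 * m := by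
    rw [← h2, Finset.mul_sum, Finset.mul_sum, ← Finset.sum_sub_distrib]
    exact Finset.sum_congr rfl fun x _ => by ring
  have h5 := Finset.sum_le_sum fun x (_ : x ∈ (Finset.univ : Finset G)) => h3 x
  rw [h4] at h5
  refine le_trans ?_ h5
  have h6 : 2 * (m / g) * (m ^ 2 / g) ≤ 2 * (m / g) * ∑ x, cv σ f x * cvL w f A x :=
    mul_le_mul_of_nonneg_left h1 (by positivity)
  have h7 : 2 * (m / g) * (m ^ 2 / g) - (m / g) ^ 2 * m = m ^ 3 / g ^ 2 := by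
    field_simp; ring
  linarith

/-- the main term -/
lemma main_term (hσ : Wt S c' σ) (hw : Wt S c w) (f : G → ℝ) (hf0 : ∀ x, 0 ≤ f x)
    (hf1 : ∀ x, f x ≤ 1) (A B : G →+ G) {δ η : ℝ} (hδ : 0 < δ) (hδ1 : δ ≤ 1) (hη : 0 < η)
    (hδη : 2 * δ ≤ η ^ 2)
    (hA : ∀ ψ : AddChar G ℂ, δ ≤ (ft σ ψ).re → 1 - δ ≤ (ft w (ψ.compAddMonoidHom A)).re)
    (hB : ∀ ψ : AddChar G ℂ, δ ≤ (ft σ ψ).re → 1 - δ ≤ (ft w (ψ.compAddMonoidHom B)).re) :
    (∑ x, f x) ^ 3 / (Fintype.card G : ℝ) ^ 2 - 3 * η * Fintype.card G ≤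
      avg w (cnt A B f f (cv σ f)) := by
  have hfa : ∀ x, |f x| ≤ 1 := fun x => by rw [abs_of_nonneg (hf0 x)]; exact hf1 x
  have vA := var1_le hσ hw f hfa A hδ hδ1 hη hδη hA
  have vB := var1_le hσ hw f hfa B hδ hδ1 hη hδη hB
  set h := cv σ f with hh
  -- pointwise comparison
  have p1 : ∀ n₁ n₂, ∑ x, f (x + A n₂) * f (x + A n₁) * h x -
      (∑ x, |h (x + A n₂) - h x| + ∑ x, |h (x + B n₁) - h x| + ∑ x, |h (x + B n₂) - h x|) ≤
      cnt A B f f h (n₁ - n₂) := by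
    intro n₁ n₂
    have e1 : cnt A B f f h (n₁ - n₂) =
        ∑ x, f (x + A n₂) * f (x + A n₁) * h (x + A n₂ + B n₁ - B n₂) := by
      unfold cnt
      rw [← sum_shift _ (A n₂)]
      refine Finset.sum_congr rfl fun x _ => ?_
      have a1 : x + A n₂ + A (n₁ - n₂) = x + A n₁ := by rw [map_sub]; abel
      have a2 : x + A n₂ + B (n₁ - n₂) = x + A n₂ + B n₁ - B n₂ := by rw [map_sub]; abel
      rw [a1, a2]
    have e2 : ∑ x, |h (x + A n₂ + B n₁ - B n₂) - h x| ≤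
        ∑ x, |h (x + A n₂) - h x| + ∑ x, |h (x + B n₁) - h x| + ∑ x, |h (x + B n₂) - h x| := by
      have b1 : ∑ x, |h (x + B n₁) - h x| = ∑ x, |h (x + A n₂ + B n₁) - h (x + A n₂)| :=
        (sum_shift (fun x => |h (x + B n₁) - h x|) (A n₂)).symm
      have b2 : ∑ x, |h (x + B n₂) - h x| =
          ∑ x, |h (x + A n₂ + B n₁) - h (x + A n₂ + B n₁ - B n₂)| := by
        rw [← sum_shift (fun x => |h (x + B n₂) - h x|) (A n₂ + B n₁ - B n₂)]
        refine Finset.sum_congr rfl fun x _ => ?_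
        have a1 : x + (A n₂ + B n₁ - B n₂) + B n₂ = x + A n₂ + B n₁ := by abel
        have a2 : x + (A n₂ + B n₁ - B n₂) = x + A n₂ + B n₁ - B n₂ := by abel
        rw [a1, a2]
      rw [b1, b2, ← Finset.sum_add_distrib, ← Finset.sum_add_distrib]
      refine Finset.sum_le_sum fun x _ => ?_
      have t1 := abs_sub_le (h (x + A n₂ + B n₁ - B n₂)) (h (x + A n₂ + B n₁)) (h x)
      have t2 := abs_sub_le (h (x + A n₂ + B n₁)) (h (x + A n₂)) (h x)
      have t3 := abs_sub_comm (h (x + A n₂ + B n₁ - B n₂)) (h (x + A n₂ + B n₁))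
      linarith
    rw [e1]
    have e3 : ∀ x, f (x + A n₂) * f (x + A n₁) * h x - |h (x + A n₂ + B n₁ - B n₂) - h x| ≤
        f (x + A n₂) * f (x + A n₁) * h (x + A n₂ + B n₁ - B n₂) := by
      intro x
      have q0 : 0 ≤ f (x + A n₂) * f (x + A n₁) := mul_nonneg (hf0 _) (hf0 _)
      have q1 : f (x + A n₂) * f (x + A n₁) ≤ 1 := mul_le_one₀ (hf1 _) (hf0 _) (hf1 _)
      have q2 := abs_nonneg (h (x + A n₂ + B n₁ - B n₂) - h x)
      have q3 := neg_abs_le (h (x + A n₂ + B n₁ - B n₂) - h x)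
      nlinarith [mul_le_mul_of_nonneg_left q3 q0, mul_le_mul_of_nonneg_right q1 q2]
    have e4 := Finset.sum_le_sum fun x (_ : x ∈ (Finset.univ : Finset G)) => e3 x
    rw [Finset.sum_sub_distrib] at e4
    linarith
  -- average
  have p2 : ∑ n₁, ∑ n₂, w n₁ * w n₂ * (∑ x, f (x + A n₂) * f (x + A n₁) * h x -
      (∑ x, |h (x + A n₂) - h x| + ∑ x, |h (x + B n₁) - h x| + ∑ x, |h (x + B n₂) - h x|)) ≤
      avg w (cnt A B f f h) := by
    refine Finset.sum_le_sum fun n₁ _ => Finset.sum_le_sum fun n₂ _ => ?_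
    exact mul_le_mul_of_nonneg_left (p1 n₁ n₂) (mul_nonneg (hw.nonneg _) (hw.nonneg _))
  have p3 : ∑ n₁, ∑ n₂, w n₁ * w n₂ * (∑ x, f (x + A n₂) * f (x + A n₁) * h x) =
      ∑ x, h x * cvL w f A x ^ 2 := by
    have : ∀ x, h x * cvL w f A x ^ 2 =
        ∑ n₁, ∑ n₂, w n₁ * w n₂ * (f (x + A n₂) * f (x + A n₁) * h x) := by
      intro x
      unfold cvL
      rw [sq, Finset.sum_mul_sum, Finset.mul_sum]
      refine Finset.sum_congr rfl fun n₁ _ => ?_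
      rw [Finset.mul_sum]
      exact Finset.sum_congr rfl fun n₂ _ => by ring
    simp_rw [this]
    symm
    calc ∑ x, ∑ n₁, ∑ n₂, w n₁ * w n₂ * (f (x + A n₂) * f (x + A n₁) * h x)
        = ∑ n₁, ∑ x, ∑ n₂, w n₁ * w n₂ * (f (x + A n₂) * f (x + A n₁) * h x) := Finset.sum_comm
      _ = ∑ n₁, ∑ n₂, ∑ x, w n₁ * w n₂ * (f (x + A n₂) * f (x + A n₁) * h x) :=
          Finset.sum_congr rfl fun n₁ _ => Finset.sum_comm
      _ = _ := by
          refine Finset.sum_congr rfl fun n₁ _ => Finset.sum_congr rfl fun n₂ _ => ?_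
          rw [Finset.mul_sum]
  have q1 : ∀ Φ : G → ℝ, ∑ n₁, ∑ n₂, w n₁ * w n₂ * Φ n₂ = ∑ n, w n * Φ n := by
    intro Φ
    have : ∀ n₁, ∑ n₂, w n₁ * w n₂ * Φ n₂ = w n₁ * ∑ n₂, w n₂ * Φ n₂ := by
      intro n₁
      rw [Finset.mul_sum]; exact Finset.sum_congr rfl fun n₂ _ => by ring
    simp_rw [this]
    rw [← Finset.sum_mul, hw.sum_eq, one_mul]
  have q2 : ∀ Φ : G → ℝ, ∑ n₁, ∑ n₂, w n₁ * w n₂ * Φ n₁ = ∑ n, w n * Φ n := by
    intro Φ
    refine Finset.sum_congr rfl fun n₁ _ => ?_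
    have : ∑ n₂, w n₁ * w n₂ * Φ n₁ = (w n₁ * Φ n₁) * ∑ n₂, w n₂ := by
      rw [Finset.mul_sum]; exact Finset.sum_congr rfl fun n₂ _ => by ring
    rw [this, hw.sum_eq, mul_one]
  have p4 : ∑ n₁, ∑ n₂, w n₁ * w n₂ * (∑ x, f (x + A n₂) * f (x + A n₁) * h x -
      (∑ x, |h (x + A n₂) - h x| + ∑ x, |h (x + B n₁) - h x| + ∑ x, |h (x + B n₂) - h x|)) =
      ∑ x, h x * cvL w f A x ^ 2 - (var1 w h A + var1 w h B + var1 w h B) := by
    rw [← p3]
    have r1 := q1 (fun n => ∑ x, |h (x + A n) - h x|)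
    have r2 := q2 (fun n => ∑ x, |h (x + B n) - h x|)
    have r3 := q1 (fun n => ∑ x, |h (x + B n) - h x|)
    unfold var1
    rw [← r1]
    conv_rhs => rw [← r3]
    have r4 : ∑ n₁, ∑ n₂, w n₁ * w n₂ * (fun n => ∑ x, |h (x + B n) - h x|) n₂ =
      ∑ n₁, ∑ n₂, w n₁ * w n₂ * (fun n => ∑ x, |h (x + B n) - h x|) n₁ := by rw [r2, r3]
    have r5 : ∑ n₁, ∑ n₂, w n₁ * w n₂ * (∑ x, f (x + A n₂) * f (x + A n₁) * h x) -
        (∑ n₁, ∑ n₂, w n₁ * w n₂ * (fun n => ∑ x, |h (x + A n) - h x|) n₂ +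
          ∑ n₁, ∑ n₂, w n₁ * w n₂ * (fun n => ∑ x, |h (x + B n) - h x|) n₁ +
          ∑ n₁, ∑ n₂, w n₁ * w n₂ * (fun n => ∑ x, |h (x + B n) - h x|) n₂) =
        ∑ n₁, ∑ n₂, w n₁ * w n₂ * (∑ x, f (x + A n₂) * f (x + A n₁) * h x -
      (∑ x, |h (x + A n₂) - h x| + ∑ x, |h (x + B n₁) - h x| + ∑ x, |h (x + B n₂) - h x|)) := by
      rw [← Finset.sum_add_distrib, ← Finset.sum_add_distrib, ← Finset.sum_sub_distrib]
      refine Finset.sum_congr rfl fun n₁ _ => ?_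
      rw [← Finset.sum_add_distrib, ← Finset.sum_add_distrib, ← Finset.sum_sub_distrib]
      exact Finset.sum_congr rfl fun n₂ _ => by ring
    rw [← r5]
    rw [← r4]
  rw [p4] at p2
  have p5 := main_lower hσ hw f hf0 A
  rw [← hh] at p5
  linarith

end Pool.Agent.H467R3.PD
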