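import Pool.Agent.H467R3.PD.Energy

set_option autoImplicit false
set_option linter.unusedSectionVars false

/-! Choosing a difference, and reduction modulo `m`. -/

namespace Pool.Agent.H467R3.PD

open Finset AddChar

section
variable {G : Type} [AddCommGroup G] [Fintype G] [DecidableEq G]
variable {S : Finset G} {c c' : ℝ} {w σ σ' : G → ℝ}

lemma pick (hw : Wt S c w) (F : G → ℝ) {D : ℝ} (hF : ∀ n, F n ≤ D) (hD : 0 ≤ D)
    (Bad : Finset G) {V : ℝ} (hV : 0 ≤ V) (h : V + Bad.card * c * D < avg w F) :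
    ∃ n₁ ∈ S, ∃ n₂ ∈ S, n₁ - n₂ ∉ Bad ∧ V < F (n₁ - n₂) := by
  by_contra hcon
  push Not at hcon
  have hc : 0 ≤ c := (hw.nonneg 0).trans (hw.le 0)
  have h1 : ∀ n₁ n₂, w n₁ * w n₂ * F (n₁ - n₂) ≤
      w n₁ * w n₂ * V + w n₁ * (c * D * (if n₁ - n₂ ∈ Bad then 1 else 0)) := by
    intro n₁ n₂
    have a1 := hw.nonneg n₁
    have a2 := hw.nonneg n₂
    by_cases s1 : n₁ ∈ S
    · by_cases s2 : n₂ ∈ S
      · by_cases hb : n₁ - n₂ ∈ Bad
        · rw [if_pos hb, mul_one]
          have b1 : w n₁ * w n₂ * F (n₁ - n₂) ≤ w n₁ * w n₂ * D :=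
            mul_le_mul_of_nonneg_left (hF _) (mul_nonneg a1 a2)
          have b2 : w n₁ * w n₂ * D ≤ w n₁ * (c * D) := by
            rw [mul_assoc]
            exact mul_le_mul_of_nonneg_left (mul_le_mul_of_nonneg_right (hw.le _) hD) a1
          have b3 : 0 ≤ w n₁ * w n₂ * V := by positivity
          linarith
        · rw [if_neg hb, mul_zero, mul_zero, add_zero]
          exact mul_le_mul_of_nonneg_left (hcon n₁ s1 n₂ s2 hb) (mul_nonneg a1 a2)
      · rw [hw.supp n₂ s2]
        have : 0 ≤ w n₁ * (c * D * (if n₁ - n₂ ∈ Bad then 1 else 0)) := by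
          split_ifs <;> positivity
        simpa using this
    · rw [hw.supp n₁ s1]; simp
  have h2 : avg w F ≤ ∑ n₁, ∑ n₂, (w n₁ * w n₂ * V +
      w n₁ * (c * D * (if n₁ - n₂ ∈ Bad then 1 else 0))) :=
    Finset.sum_le_sum fun n₁ _ => Finset.sum_le_sum fun n₂ _ => h1 n₁ n₂
  have h3 : ∀ n₁ : G, ∑ n₂, (if n₁ - n₂ ∈ Bad then (1 : ℝ) else 0) = Bad.card := by
    intro n₁
    have : ∑ n₂, (if n₁ - n₂ ∈ Bad then (1 : ℝ) else 0) =
        ∑ n₂, (if n₂ ∈ Bad then (1 : ℝ) else 0) :=
      Fintype.sum_equiv (Equiv.subLeft n₁) _ _ fun x => by simp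
    rw [this]
    simp
  have h4 : ∑ n₁, ∑ n₂, (w n₁ * w n₂ * V +
      w n₁ * (c * D * (if n₁ - n₂ ∈ Bad then 1 else 0))) = V + Bad.card * c * D := by
    have : ∀ n₁, ∑ n₂, (w n₁ * w n₂ * V +
        w n₁ * (c * D * (if n₁ - n₂ ∈ Bad then 1 else 0))) =
        w n₁ * (V + Bad.card * c * D) := by
      intro n₁
      rw [Finset.sum_add_distrib, ← Finset.sum_mul, ← Finset.mul_sum, hw.sum_eq, mul_one,
        ← Finset.mul_sum, ← Finset.mul_sum, h3]
      ring
    simp_rw [this]
    rw [← Finset.sum_mul, hw.sum_eq, one_mul]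
  linarith

end

section reduction

variable (m : ℕ)

/-- reduction modulo `m` -/
def red (x : Fin 2 → ℤ) : Fin 2 → ZMod m := fun i => (x i : ZMod m)

lemma red_sub (x y : Fin 2 → ℤ) : red m (x - y) = red m x - red m y := by
  funext i; simp [red]

lemma red_add (x y : Fin 2 → ℤ) : red m (x + y) = red m x + red m y := by
  funext i; simp [red]

/-- the homomorphism attached to an integer matrix -/
def toHom (M : Matrix (Fin 2) (Fin 2) ℤ) : (Fin 2 → ZMod m) →+ (Fin 2 → ZMod m) :=
  (Matrix.mulVecLin (M.map (Int.cast : ℤ → ZMod m))).toAddMonoidHom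

lemma toHom_apply (M : Matrix (Fin 2) (Fin 2) ℤ) (v : Fin 2 → ZMod m) :
    toHom m M v = (M.map (Int.cast : ℤ → ZMod m)).mulVec v := rfl

lemma toHom_red (M : Matrix (Fin 2) (Fin 2) ℤ) (n : Fin 2 → ℤ) :
    toHom m M (red m n) = red m (M.mulVec n) := by
  funext i
  rw [toHom_apply]
  simp only [Matrix.mulVec, dotProduct, Fin.sum_univ_two, red, Matrix.map_apply]
  push_cast
  rfl

lemma toHom_sub (M₁ M₂ : Matrix (Fin 2) (Fin 2) ℤ) :
    toHom m M₁ - toHom m M₂ = toHom m (M₁ - M₂) := by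
  refine AddMonoidHom.ext fun v => funext fun i => ?_
  simp only [AddMonoidHom.sub_apply, toHom_apply, Matrix.mulVec, dotProduct, Fin.sum_univ_two,
    Matrix.map_apply, Pi.sub_apply, Matrix.sub_apply]
  push_cast
  ring

lemma toHom_bij [NeZero m] (M : Matrix (Fin 2) (Fin 2) ℤ) (h : IsUnit ((M.det : ℤ) : ZMod m)) :
    Function.Bijective (toHom m M) := by
  rw [← Finite.injective_iff_bijective]
  have h1 : IsUnit (M.map (Int.cast : ℤ → ZMod m)) := by
    rw [Matrix.isUnit_iff_isUnit_det]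
    have : (M.map (Int.cast : ℤ → ZMod m)).det = ((M.det : ℤ) : ZMod m) := by
      rw [Matrix.det_fin_two, Matrix.det_fin_two]
      simp
    rw [this]; exact h
  exact Matrix.mulVec_injective_of_isUnit h1

lemma isUnit_of_dvd (d D : ℤ) (hd : d ∣ D) (k : ℕ) (hm : m = D.natAbs * k + 1) :
    IsUnit ((d : ℤ) : ZMod m) := by
  have h1 : ((D.natAbs * k + 1 : ℕ) : ZMod m) = 0 := by
    rw [← hm]; simp
  obtain ⟨e, he⟩ := hd
  have h2 : ((D.natAbs : ℕ) : ℤ) = D ∨ ((D.natAbs : ℕ) : ℤ) = -D := by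
    rcases Int.natAbs_eq D with h | h
    · left; exact h.symm
    · right; omega
  have h3 : (((D.natAbs : ℕ) : ℤ) : ZMod m) * (k : ZMod m) = -1 := by
    have : ((D.natAbs * k + 1 : ℕ) : ZMod m) = (((D.natAbs : ℕ) : ℤ) : ZMod m) * (k : ZMod m) + 1 := by
      rw [Nat.cast_add, Nat.cast_mul, Nat.cast_one, Int.cast_natCast]
    rw [this] at h1
    exact eq_neg_of_add_eq_zero_left h1
  rcases h2 with h | h
  · rw [h, he] at h3
    refine IsUnit.of_mul_eq_one (-(e : ZMod m) * k) ?_
    push_cast at h3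
    linear_combination -h3
  · rw [h, he] at h3
    refine IsUnit.of_mul_eq_one ((e : ZMod m) * k) ?_
    push_cast at h3
    linear_combination -h3

/-- two integer vectors that agree modulo `m` and are close are equal -/
lemma eq_of_red {x y : Fin 2 → ℤ} (h : red m x = red m y) (hc : ∀ i, |x i - y i| < m) :
    x = y := by
  funext i
  have h1 : ((x i : ℤ) : ZMod m) = ((y i : ℤ) : ZMod m) := congrFun h i
  rw [← sub_eq_zero, ← Int.cast_sub, ZMod.intCast_zmod_eq_zero_iff_dvd] at h1
  have h2 := Int.eq_zero_of_abs_lt_dvd h1 (hc i)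
  omega

end reduction

/-- box -/
noncomputable def box (L : ℕ) : Finset (Fin 2 → ℤ) := Fintype.piFinset fun _ => Finset.Ioo (-(L : ℤ)) L

lemma mem_box (L : ℕ) (x : Fin 2 → ℤ) : x ∈ box L ↔ ∀ i, -(L : ℤ) < x i ∧ x i < L := by
  simp [box]

lemma card_bad (M : Matrix (Fin 2) (Fin 2) ℤ) (hM : M ≠ 0) (L : ℕ) :
    ((box L).filter fun n => M.mulVec n = 0).card ≤ 2 * L := by
  classical
  have : ∃ i j, M i j ≠ 0 := by
    by_contra hcon
    push Not at hcon
    exact hM (by ext i j; simpa using hcon i j)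
  obtain ⟨i, j, hij⟩ := this
  have hcard : (Finset.Ioo (-(L : ℤ)) L).card ≤ 2 * L := by
    rw [Int.card_Ioo]; omega
  refine le_trans ?_ hcard
  have hrow : ∀ n : Fin 2 → ℤ, M.mulVec n = 0 → M i 0 * n 0 + M i 1 * n 1 = 0 := by
    intro n hn
    have := congrFun hn i
    simpa [Matrix.mulVec, dotProduct, Fin.sum_univ_two] using this
  fin_cases j
  · refine Finset.card_le_card_of_injOn (fun n => n 1) ?_ ?_
    · intro n hn
      have := (mem_box L n).1 (Finset.mem_filter.1 hn).1 1
      simpa using this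
    · intro n hn n' hn' h
      have e1 := hrow n (Finset.mem_filter.1 hn).2
      have e2 := hrow n' (Finset.mem_filter.1 hn').2
      simp only at h
      rw [h] at e1
      have e3 : M i 0 * (n 0 - n' 0) = 0 := by linear_combination e1 - e2
      have e4 : n 0 - n' 0 = 0 := by
        rcases mul_eq_zero.1 e3 with h | h
        · exact absurd h hij
        · exact h
      funext k
      fin_cases k
      · simp; omega
      · simpa using h
  · refine Finset.card_le_card_of_injOn (fun n => n 0) ?_ ?_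
    · intro n hn
      have := (mem_box L n).1 (Finset.mem_filter.1 hn).1 0
      simpa using this
    · intro n hn n' hn' h
      have e1 := hrow n (Finset.mem_filter.1 hn).2
      have e2 := hrow n' (Finset.mem_filter.1 hn').2
      simp only at h
      rw [h] at e1
      have e3 : M i 1 * (n 1 - n' 1) = 0 := by linear_combination e1 - e2
      have e4 : n 1 - n' 1 = 0 := by
        rcases mul_eq_zero.1 e3 with h | h
        · exact absurd h hij
        · exact h
      funext k
      fin_cases k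
      · simpa using h
      · simp; omega

end Pool.Agent.H467R3.PD
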