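import Pool.Agent.H467R3.PD.Main

set_option autoImplicit false
set_option linter.unusedSectionVars false

/-! Construction of Bohr type weights from Fejer kernels. -/

namespace Pool.Agent.H467R3.PD

open Finset AddChar
open scoped ComplexConjugate

variable {G : Type} [AddCommGroup G] [Fintype G] [DecidableEq G]

/-- nonnegative Fourier transform -/
def Pdf (a : G → ℝ) : Prop := ∀ ψ : AddChar G ℂ, ∃ t : ℝ, 0 ≤ t ∧ ft a ψ = t

lemma ft_mul (a b : G → ℝ) (ψ : AddChar G ℂ) :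
    (Fintype.card G : ℂ) * ft (fun x => a x * b x) ψ =
      ∑ φ : AddChar G ℂ, ft a φ * ft b (ψ - φ) := by
  have h1 : ∀ x, (Fintype.card G : ℂ) * (((a x * b x : ℝ) : ℂ) * ψ x) =
      ∑ φ : AddChar G ℂ, ft a φ * ((b x : ℂ) * (ψ - φ) x) := by
    intro x
    have := ft_inv a x
    have e : (Fintype.card G : ℂ) * (((a x * b x : ℝ) : ℂ) * ψ x) =
        ((Fintype.card G : ℂ) * a x) * (b x * ψ x) := by push_cast; ring
    rw [e, ← this, Finset.sum_mul]
    refine Finset.sum_congr rfl fun φ _ => ?_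
    rw [AddChar.sub_apply]; ring
  have h2 : (Fintype.card G : ℂ) * ft (fun x => a x * b x) ψ =
      ∑ x, (Fintype.card G : ℂ) * (((a x * b x : ℝ) : ℂ) * ψ x) := by
    unfold ft; rw [Finset.mul_sum]
  rw [h2]
  simp_rw [h1]
  rw [Finset.sum_comm]
  refine Finset.sum_congr rfl fun φ _ => ?_
  unfold ft
  rw [Finset.mul_sum]

lemma Pdf.mul {a b : G → ℝ} (ha : Pdf a) (hb : Pdf b) : Pdf (fun x => a x * b x) := by
  intro ψ
  choose s hs hs' using ha
  choose t ht ht' using hb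
  have hg : (Fintype.card G : ℂ) ≠ 0 := by exact_mod_cast Fintype.card_ne_zero
  have hg' : (0 : ℝ) < Fintype.card G := by exact_mod_cast Fintype.card_pos
  have e := ft_mul a b ψ
  simp_rw [hs', ht'] at e
  refine ⟨(Fintype.card G : ℝ)⁻¹ * ∑ φ : AddChar G ℂ, s φ * t (ψ - φ), ?_, ?_⟩
  · exact mul_nonneg (by positivity) (Finset.sum_nonneg fun φ _ => mul_nonneg (hs _) (ht _))
  · push_cast
    rw [← e, ← mul_assoc, inv_mul_cancel₀ hg, one_mul]

lemma ft_zero_eq (a : G → ℝ) : ft a 0 = ((∑ x, a x : ℝ) : ℂ) := by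
  unfold ft
  simp only [AddChar.zero_apply, mul_one]
  rw [← Complex.ofReal_sum]

/-- total mass grows under multiplication with a kernel of mean at least one -/
lemma Pdf.sum_mul_ge {a b : G → ℝ} (ha : Pdf a) (hb : Pdf b)
    (hb1 : (Fintype.card G : ℝ) ≤ ∑ x, b x) : ∑ x, a x ≤ ∑ x, a x * b x := by
  choose s hs hs' using ha
  choose t ht ht' using hb
  have hg' : (0 : ℝ) < Fintype.card G := by exact_mod_cast Fintype.card_pos
  have e := ft_mul a b 0
  simp_rw [hs', ht'] at e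
  rw [ft_zero_eq] at e
  have e' : (Fintype.card G : ℝ) * ∑ x, a x * b x =
      ∑ φ : AddChar G ℂ, s φ * t (0 - φ) := by exact_mod_cast e
  have s0 : s 0 = ∑ x, a x := by
    have := hs' 0
    rw [ft_zero_eq] at this
    exact_mod_cast this.symm
  have t0 : t 0 = ∑ x, b x := by
    have := ht' 0
    rw [ft_zero_eq] at this
    exact_mod_cast this.symm
  have h1 : s 0 * t (0 - 0) ≤ ∑ φ : AddChar G ℂ, s φ * t (0 - φ) :=
    Finset.single_le_sum (f := fun φ : AddChar G ℂ => s φ * t (0 - φ))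
      (fun φ _ => mul_nonneg (hs _) (ht _)) (Finset.mem_univ 0)
  rw [sub_zero, s0, t0, ← e'] at h1
  have h2 : (∑ x, a x) * Fintype.card G ≤ (∑ x, a x) * ∑ x, b x :=
    mul_le_mul_of_nonneg_left hb1 (s0 ▸ hs 0)
  have h3 : (∑ x, a x) * Fintype.card G ≤ (Fintype.card G : ℝ) * ∑ x, a x * b x := h2.trans h1
  rw [mul_comm] at h3
  exact le_of_mul_le_mul_left h3 hg'

/-- Fejer kernel along the character `η` -/
noncomputable def fej (Q : ℕ) (η : AddChar G ℂ) (n : G) : ℝ :=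
  (Q : ℝ)⁻¹ * ‖∑ k ∈ Finset.range Q, η n ^ k‖ ^ 2

lemma fej_nonneg (Q : ℕ) (η : AddChar G ℂ) (n : G) : 0 ≤ fej Q η n := by
  unfold fej; positivity

lemma fej_le (Q : ℕ) (hQ : 0 < Q) (η : AddChar G ℂ) (n : G) : fej Q η n ≤ Q := by
  have hQ' : (0 : ℝ) < Q := by exact_mod_cast hQ
  unfold fej
  have h1 : ‖∑ k ∈ Finset.range Q, η n ^ k‖ ≤ Q := by
    refine (norm_sum_le _ _).trans ?_
    simp [norm_psi]
  rw [inv_mul_le_iff₀ hQ', ← sq]
  exact pow_le_pow_left₀ (norm_nonneg _) h1 2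

lemma fej_mul (Q : ℕ) (hQ : 0 < Q) (η : AddChar G ℂ) (n : G) :
    fej Q η n * (1 - (η n).re) ≤ 2 / Q := by
  have hQ' : (0 : ℝ) < Q := by exact_mod_cast hQ
  have h1 := norm_sub_one_sq η n
  have h2 : (∑ k ∈ Finset.range Q, η n ^ k) * (η n - 1) = η n ^ Q - 1 := geom_sum_mul _ _
  have h3 : ‖∑ k ∈ Finset.range Q, η n ^ k‖ ^ 2 * ‖η n - 1‖ ^ 2 ≤ 4 := by
    rw [← mul_pow, ← norm_mul, h2]
    have : ‖η n ^ Q - 1‖ ≤ 2 := by
      refine (norm_sub_le _ _).trans ?_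
      rw [norm_pow, norm_psi]; norm_num
    nlinarith [norm_nonneg (η n ^ Q - 1)]
  rw [h1] at h3
  unfold fej
  rw [div_eq_inv_mul, mul_assoc]
  refine mul_le_mul_of_nonneg_left ?_ (by positivity)
  nlinarith

lemma fej_eq (Q : ℕ) (η : AddChar G ℂ) (n : G) :
    ((fej Q η n : ℝ) : ℂ) = (Q : ℂ)⁻¹ * ∑ k ∈ Finset.range Q, ∑ l ∈ Finset.range Q,
      (k • η - l • η) n := by
  unfold fej
  push_cast
  congr 1
  have : ((‖∑ k ∈ Finset.range Q, η n ^ k‖ : ℝ) : ℂ) ^ 2 =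
      (∑ k ∈ Finset.range Q, η n ^ k) * conj (∑ k ∈ Finset.range Q, η n ^ k) := by
    rw [Complex.mul_conj, Complex.normSq_eq_norm_sq]; push_cast; rfl
  rw [this, map_sum, Finset.sum_mul_sum]
  refine Finset.sum_congr rfl fun k _ => Finset.sum_congr rfl fun l _ => ?_
  rw [AddChar.sub_apply, AddChar.nsmul_apply, map_pow, conj_apply, AddChar.nsmul_apply]

lemma ft_fej (Q : ℕ) (η ψ : AddChar G ℂ) :
    ft (fej Q η) ψ = (((Q : ℝ)⁻¹ * ∑ k ∈ Finset.range Q, ∑ l ∈ Finset.range Q,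
      (if k • η - l • η + ψ = 0 then (Fintype.card G : ℝ) else 0) : ℝ) : ℂ) := by
  unfold ft
  simp_rw [fej_eq]
  push_cast
  have : ∀ x, (Q : ℂ)⁻¹ * (∑ k ∈ Finset.range Q, ∑ l ∈ Finset.range Q, (k • η - l • η) x) * ψ x =
      (Q : ℂ)⁻¹ * ∑ k ∈ Finset.range Q, ∑ l ∈ Finset.range Q, (k • η - l • η + ψ) x := by
    intro x
    rw [mul_assoc, Finset.sum_mul]
    congr 1
    refine Finset.sum_congr rfl fun k _ => ?_
    rw [Finset.sum_mul]
    exact Finset.sum_congr rfl fun l _ => by rw [AddChar.add_apply]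
  simp_rw [this]
  rw [← Finset.mul_sum, Finset.sum_comm]
  congr 1
  refine Finset.sum_congr rfl fun k _ => ?_
  rw [Finset.sum_comm]
  refine Finset.sum_congr rfl fun l _ => ?_
  rw [AddChar.sum_eq_ite]
  split_ifs <;> simp

lemma pdf_fej (Q : ℕ) (η : AddChar G ℂ) : Pdf (fej Q η) := by
  intro ψ
  refine ⟨_, ?_, ft_fej Q η ψ⟩
  refine mul_nonneg (by positivity) (Finset.sum_nonneg fun k _ => Finset.sum_nonneg fun l _ => ?_)
  split_ifs <;> positivity

lemma sum_fej (Q : ℕ) (hQ : 0 < Q) (η : AddChar G ℂ) :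
    (Fintype.card G : ℝ) ≤ ∑ x, fej Q η x := by
  have hQ' : (0 : ℝ) < Q := by exact_mod_cast hQ
  have h := ft_fej Q η 0
  rw [ft_zero_eq] at h
  have h' := Complex.ofReal_injective h
  rw [h']
  have h1 : ∀ k ∈ Finset.range Q, (Fintype.card G : ℝ) ≤ ∑ l ∈ Finset.range Q,
      (if k • η - l • η + 0 = 0 then (Fintype.card G : ℝ) else 0) := by
    intro k hk
    have : (if k • η - k • η + 0 = 0 then (Fintype.card G : ℝ) else 0) ≤
        ∑ l ∈ Finset.range Q, (if k • η - l • η + 0 = 0 then (Fintype.card G : ℝ) else 0) := by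
      refine Finset.single_le_sum
        (f := fun l => if k • η - l • η + 0 = 0 then (Fintype.card G : ℝ) else 0)
        (fun l _ => ?_) hk
      split_ifs <;> positivity
    simpa using this
  have h2 := Finset.sum_le_sum h1
  rw [Finset.sum_const, Finset.card_range, nsmul_eq_mul] at h2
  calc (Fintype.card G : ℝ) = (Q : ℝ)⁻¹ * (Q * Fintype.card G) := by field_simp
    _ ≤ _ := mul_le_mul_of_nonneg_left h2 (by positivity)

/-- autocorrelation of a finite set -/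
noncomputable def om (I : Finset G) (n : G) : ℝ :=
  (((I.card : ℝ)) ^ 2)⁻¹ * ∑ u ∈ I, ∑ v ∈ I, if u - v = n then 1 else 0

lemma om_nonneg (I : Finset G) (n : G) : 0 ≤ om I n := by
  unfold om
  refine mul_nonneg (by positivity) (Finset.sum_nonneg fun u _ => Finset.sum_nonneg fun v _ => ?_)
  split_ifs <;> norm_num

lemma om_sum (I : Finset G) (hI : I.Nonempty) : ∑ n, om I n = 1 := by
  have hc : (I.card : ℝ) ≠ 0 := by exact_mod_cast hI.card_pos.ne'
  unfold om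
  rw [← Finset.mul_sum, Finset.sum_comm]
  have : ∀ u ∈ I, ∑ n, ∑ v ∈ I, (if u - v = n then (1 : ℝ) else 0) = I.card := by
    intro u _
    rw [Finset.sum_comm]
    simp
  rw [Finset.sum_congr rfl this]
  simp only [Finset.sum_const, nsmul_eq_mul]
  field_simp

lemma om_le (I : Finset G) (hI : I.Nonempty) (n : G) : om I n ≤ (I.card : ℝ)⁻¹ := by
  have hc : (0 : ℝ) < I.card := by exact_mod_cast hI.card_pos
  unfold om
  have h1 : ∑ u ∈ I, ∑ v ∈ I, (if u - v = n then (1 : ℝ) else 0) ≤ ∑ _u ∈ I, (1 : ℝ) := by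
    refine Finset.sum_le_sum fun u _ => ?_
    have : ∀ v, (if u - v = n then (1 : ℝ) else 0) = if v = u - n then (1 : ℝ) else 0 := by
      intro v
      congr 1
      rw [eq_iff_iff]
      constructor
      · intro h; rw [← h]; abel
      · intro h; rw [h]; abel
    simp_rw [this]
    rw [Finset.sum_ite_eq']
    split_ifs <;> norm_num
  rw [Finset.sum_const, nsmul_eq_mul, mul_one] at h1
  calc _ ≤ ((I.card : ℝ) ^ 2)⁻¹ * I.card := mul_le_mul_of_nonneg_left h1 (by positivity)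
    _ = _ := by field_simp

lemma om_supp (I S : Finset G) (hS : ∀ u ∈ I, ∀ v ∈ I, u - v ∈ S) (n : G) (hn : n ∉ S) :
    om I n = 0 := by
  unfold om
  have : ∑ u ∈ I, ∑ v ∈ I, (if u - v = n then (1 : ℝ) else 0) = 0 := by
    refine Finset.sum_eq_zero fun u hu => Finset.sum_eq_zero fun v hv => ?_
    rw [if_neg]
    intro h
    exact hn (h ▸ hS u hu v hv)
  rw [this, mul_zero]

lemma pdf_om (I : Finset G) : Pdf (om I) := by
  intro ψ
  refine ⟨((I.card : ℝ) ^ 2)⁻¹ * ‖∑ u ∈ I, ψ u‖ ^ 2, by positivity, ?_⟩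
  unfold ft om
  push_cast
  have h1 : ((‖∑ u ∈ I, ψ u‖ : ℝ) : ℂ) ^ 2 = (∑ u ∈ I, ψ u) * conj (∑ u ∈ I, ψ u) := by
    rw [Complex.mul_conj, Complex.normSq_eq_norm_sq]; push_cast; rfl
  rw [h1, map_sum, Finset.sum_mul_sum]
  have h2 : ∀ x, ((I.card : ℂ) ^ 2)⁻¹ * (∑ u ∈ I, ∑ v ∈ I, (((if u - v = x then 1 else 0 : ℝ)) : ℂ)) * ψ x
      = ((I.card : ℂ) ^ 2)⁻¹ * ∑ u ∈ I, ∑ v ∈ I, (if u - v = x then ψ x else 0) := by
    intro x
    rw [mul_assoc, Finset.sum_mul]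
    congr 1
    refine Finset.sum_congr rfl fun u _ => ?_
    rw [Finset.sum_mul]
    refine Finset.sum_congr rfl fun v _ => ?_
    split_ifs <;> simp
  simp_rw [h2]
  rw [← Finset.mul_sum, Finset.sum_comm]
  congr 1
  refine Finset.sum_congr rfl fun u _ => ?_
  rw [Finset.sum_comm]
  refine Finset.sum_congr rfl fun v _ => ?_
  rw [Finset.sum_ite_eq, if_pos (Finset.mem_univ _), conj_apply, ← map_add_eq_mul,
    ← sub_eq_add_neg]

/-- unnormalised weight -/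
noncomputable def uw (I : Finset G) (Q : ℕ) (T : Finset (AddChar G ℂ)) (n : G) : ℝ :=
  om I n * ∏ η ∈ T, fej Q η n

lemma uw_nonneg (I : Finset G) (Q : ℕ) (T : Finset (AddChar G ℂ)) (n : G) : 0 ≤ uw I Q T n :=
  mul_nonneg (om_nonneg _ _) (Finset.prod_nonneg fun η _ => fej_nonneg _ _ _)

lemma uw_insert (I : Finset G) (Q : ℕ) (T : Finset (AddChar G ℂ)) (η : AddChar G ℂ) (h : η ∉ T) :
    uw I Q (insert η T) = fun n => uw I Q T n * fej Q η n := by
  funext n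
  unfold uw
  rw [Finset.prod_insert h]; ring

lemma uw_props (I : Finset G) (hI : I.Nonempty) (Q : ℕ) (hQ : 0 < Q)
    (T : Finset (AddChar G ℂ)) :
    Pdf (uw I Q T) ∧ 1 ≤ ∑ n, uw I Q T n ∧ ∀ n, uw I Q T n ≤ (Q : ℝ) ^ T.card * (I.card : ℝ)⁻¹ := by
  classical
  induction T using Finset.induction_on with
  | empty =>
    have e : uw I Q ∅ = om I := by funext n; simp [uw]
    rw [e]
    exact ⟨pdf_om I, (om_sum I hI).ge, fun n => by simpa using om_le I hI n⟩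
  | insert η T h ih =>
    obtain ⟨h1, h2, h3⟩ := ih
    rw [uw_insert I Q T η h]
    refine ⟨h1.mul (pdf_fej Q η), h2.trans (h1.sum_mul_ge (pdf_fej Q η) (sum_fej Q hQ η)), ?_⟩
    intro n
    rw [Finset.card_insert_of_notMem h, pow_succ]
    calc uw I Q T n * fej Q η n ≤ ((Q : ℝ) ^ T.card * (I.card : ℝ)⁻¹) * Q :=
          mul_le_mul (h3 n) (fej_le Q hQ η n) (fej_nonneg _ _ _) (by positivity)
      _ = _ := by ring

theorem exists_wt (I S : Finset G) (hI : I.Nonempty) (hS : ∀ u ∈ I, ∀ v ∈ I, u - v ∈ S) (Q : ℕ)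
    (hQ : 0 < Q) (T : Finset (AddChar G ℂ)) :
    ∃ w : G → ℝ, Wt S ((Q : ℝ) ^ T.card * (I.card : ℝ)⁻¹) w ∧
      ∀ η ∈ T, 1 - 2 / (Q : ℝ) ≤ (ft w η).re := by
  classical
  obtain ⟨h1, h2, h3⟩ := uw_props I hI Q hQ T
  set Z : ℝ := ∑ n, uw I Q T n with hZ
  have hZ0 : 0 < Z := by linarith
  have hQ' : (0 : ℝ) < Q := by exact_mod_cast hQ
  have hft : ∀ ψ, ft (fun n => Z⁻¹ * uw I Q T n) ψ = (Z⁻¹ : ℝ) * ft (uw I Q T) ψ := by
    intro ψ
    unfold ft
    rw [Finset.mul_sum]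
    refine Finset.sum_congr rfl fun x _ => ?_
    push_cast; ring
  have hW : Wt S ((Q : ℝ) ^ T.card * (I.card : ℝ)⁻¹) (fun n => Z⁻¹ * uw I Q T n) := by
    refine ⟨fun x => mul_nonneg (by positivity) (uw_nonneg _ _ _ _), ?_, ?_, ?_, ?_⟩
    · rw [← Finset.mul_sum, ← hZ]; exact inv_mul_cancel₀ hZ0.ne'
    · intro x
      calc Z⁻¹ * uw I Q T x ≤ 1 * uw I Q T x :=
            mul_le_mul_of_nonneg_right (inv_le_one_of_one_le₀ h2) (uw_nonneg _ _ _ _)
        _ ≤ _ := by rw [one_mul]; exact h3 x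
    · intro x hx
      rw [uw, om_supp I S hS x hx]; simp
    · intro ψ
      obtain ⟨t, ht, e⟩ := h1 ψ
      refine ⟨Z⁻¹ * t, by positivity, ?_⟩
      rw [hft, e]; push_cast; rfl
  refine ⟨_, hW, ?_⟩
  intro η hη
  rw [hW.re_eq]
  have e1 : uw I Q T = fun n => uw I Q (T.erase η) n * fej Q η n := by
    conv_lhs => rw [← Finset.insert_erase hη]
    exact uw_insert I Q (T.erase η) η (Finset.notMem_erase η T)
  obtain ⟨k1, k2, k3⟩ := uw_props I hI Q hQ (T.erase η)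
  have e2 : ∑ n, uw I Q (T.erase η) n ≤ Z := by
    rw [hZ, e1]
    exact k1.sum_mul_ge (pdf_fej Q η) (sum_fej Q hQ η)
  have e3 : ∑ n, uw I Q T n * (1 - (η n).re) ≤ 2 / Q * Z := by
    calc ∑ n, uw I Q T n * (1 - (η n).re)
        = ∑ n, uw I Q (T.erase η) n * (fej Q η n * (1 - (η n).re)) := by
          rw [e1]; exact Finset.sum_congr rfl fun n _ => by ring
      _ ≤ ∑ n, uw I Q (T.erase η) n * (2 / Q) :=
          Finset.sum_le_sum fun n _ =>
            mul_le_mul_of_nonneg_left (fej_mul Q hQ η n) (uw_nonneg _ _ _ _)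
      _ = 2 / Q * ∑ n, uw I Q (T.erase η) n := by rw [← Finset.sum_mul]; ring
      _ ≤ 2 / Q * Z := mul_le_mul_of_nonneg_left e2 (by positivity)
  have e4 : ∑ n, Z⁻¹ * uw I Q T n * (η n).re = 1 - Z⁻¹ * ∑ n, uw I Q T n * (1 - (η n).re) := by
    have : ∑ n, uw I Q T n * (1 - (η n).re) = Z - ∑ n, uw I Q T n * (η n).re := by
      rw [hZ, ← Finset.sum_sub_distrib]; exact Finset.sum_congr rfl fun n _ => by ring
    rw [this, mul_sub, inv_mul_cancel₀ hZ0.ne', Finset.mul_sum]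
    ring_nf
  rw [e4]
  have e5 : Z⁻¹ * ∑ n, uw I Q T n * (1 - (η n).re) ≤ 2 / Q := by
    rw [inv_mul_le_iff₀ hZ0]; linarith
  linarith

end Pool.Agent.H467R3.PD
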